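import Pool.Agent.Y236.Lech

/-!
# Transfer from polynomials to power series
-/

set_option autoImplicit false

namespace Pool.Agent.Y236.SL

open Finset

variable {n : ℕ} {k : Type} [Field k]

/-- The ideal generated by the variables in the power series ring. -/
noncomputable abbrev mR (n : ℕ) (k : Type) [Field k] : Ideal (MvPowerSeries (Fin n) k) :=
  Ideal.span (Set.range (MvPowerSeries.X : Fin n → MvPowerSeries (Fin n) k))

/-- The inclusion of polynomials in power series. -/
noncomputable abbrev io (n : ℕ) (k : Type) [Field k] :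
    MvPolynomial (Fin n) k →+* MvPowerSeries (Fin n) k :=
  MvPolynomial.coeToMvPowerSeries.ringHom

theorem map_mI : (mI n k).map (io n k) = mR n k := by
  rw [Ideal.map_span]
  congr 1
  ext f
  constructor
  · rintro ⟨_, ⟨j, rfl⟩, rfl⟩
    exact ⟨j, by simp⟩
  · rintro ⟨j, rfl⟩
    exact ⟨_, ⟨j, rfl⟩, by simp⟩

theorem monomial_mem_mR {E : ℕ} {u : Fin n →₀ ℕ} (hu : E ≤ u.degree) :
    MvPowerSeries.monomial u (1 : k) ∈ mR n k ^ E := by
  have h1 : MvPolynomial.monomial u (1 : k) ∈ mI n k ^ E := by
    rw [MvPolynomial.monomial_mem_pow_idealOfVars_iff _ _ one_ne_zero]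
    exact hu
  have h2 := Ideal.mem_map_of_mem (io n k) h1
  rw [Ideal.map_pow, map_mI] at h2
  simpa using h2

/-- Power series of order at least `E` are in the `E`-th power of the maximal ideal. -/
theorem mem_mR_pow {E : ℕ} (f : MvPowerSeries (Fin n) k)
    (hf : ∀ u : Fin n →₀ ℕ, u.degree < E → MvPowerSeries.coeff u f = 0) : f ∈ mR n k ^ E := by
  classical
  have hex : ∀ s : Fin n →₀ ℕ, ∃ u : Fin n →₀ ℕ, E ≤ s.degree → u ≤ s ∧ u.degree = E := by
    intro s
    by_cases hs : E ≤ s.degree
    · obtain ⟨u, hu, hu'⟩ := Finsupp.exists_le_degree_eq s E hs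
      exact ⟨u, fun _ => ⟨hu, hu'⟩⟩
    · exact ⟨0, fun h => absurd h hs⟩
  choose φ hφ using hex
  let T : Finset (Fin n →₀ ℕ) := (Finsupp.finite_of_degree_eq (σ := Fin n) E).toFinset
  let g : (Fin n →₀ ℕ) → MvPowerSeries (Fin n) k := fun u w =>
    if φ (u + w) = u then MvPowerSeries.coeff (u + w) f else 0
  have hg : ∀ u w, MvPowerSeries.coeff w (g u) =
      if φ (u + w) = u then MvPowerSeries.coeff (u + w) f else 0 := fun u w => rfl
  have hsum : f = ∑ u ∈ T, MvPowerSeries.monomial u (1 : k) * g u := by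
    ext s
    rw [map_sum]
    by_cases hs : E ≤ s.degree
    · obtain ⟨h1, h2⟩ := hφ s hs
      rw [Finset.sum_eq_single (φ s)]
      · rw [MvPowerSeries.coeff_monomial_mul, if_pos h1, one_mul, hg, add_tsub_cancel_of_le h1,
          if_pos rfl]
      · intro u hu hne
        rw [MvPowerSeries.coeff_monomial_mul]
        split_ifs with h3
        · rw [one_mul, hg, add_tsub_cancel_of_le h3, if_neg (fun h => hne h.symm)]
        · rfl
      · intro hc
        exfalso
        apply hc
        simp only [T, Set.Finite.mem_toFinset, Set.mem_ofPred_eq]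
        exact h2
    · rw [hf s (not_le.1 hs)]
      symm
      apply Finset.sum_eq_zero
      intro u hu
      rw [MvPowerSeries.coeff_monomial_mul, if_neg]
      intro h3
      apply hs
      simp only [T, Set.Finite.mem_toFinset, Set.mem_ofPred_eq] at hu
      rw [← hu]
      exact Finsupp.degree_mono h3
  rw [hsum]
  apply Ideal.sum_mem
  intro u hu
  simp only [T, Set.Finite.mem_toFinset, Set.mem_ofPred_eq] at hu
  exact Ideal.mul_mem_right _ _ (monomial_mem_mR hu.ge)

/-- Every power series is a polynomial modulo a power of the maximal ideal. -/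
theorem exists_poly (E : ℕ) (f : MvPowerSeries (Fin n) k) :
    ∃ p : MvPolynomial (Fin n) k, f - io n k p ∈ mR n k ^ E := by
  refine ⟨MvPowerSeries.truncTotal E f, mem_mR_pow _ ?_⟩
  intro u hu
  rw [map_sub, MvPolynomial.coeToMvPowerSeries.ringHom_apply, MvPolynomial.coeff_coe,
    MvPowerSeries.coeff_truncTotal _ hu, sub_self]

/-- The induced linear map on quotients. -/
noncomputable def qmap (G : Ideal (MvPolynomial (Fin n) k)) (J : Ideal (MvPowerSeries (Fin n) k))
    (h : G ≤ J.comap (io n k)) :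
    (MvPolynomial (Fin n) k ⧸ G) →ₗ[k] (MvPowerSeries (Fin n) k ⧸ J) where
  toFun := Ideal.quotientMap J (io n k) h
  map_add' x y := map_add _ x y
  map_smul' a x := by
    obtain ⟨f, rfl⟩ := Ideal.Quotient.mk_surjective x
    have h1 : a • (Ideal.Quotient.mk G f) = Ideal.Quotient.mk G (a • f) := rfl
    rw [h1, Ideal.quotientMap_mk, Ideal.quotientMap_mk, RingHom.id_apply]
    have h2 : a • (Ideal.Quotient.mk J (io n k f)) = Ideal.Quotient.mk J (a • io n k f) := rfl
    rw [h2]
    congr 1

theorem qmap_mk (G : Ideal (MvPolynomial (Fin n) k)) (J : Ideal (MvPowerSeries (Fin n) k))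
    (h : G ≤ J.comap (io n k)) (f : MvPolynomial (Fin n) k) :
    qmap G J h (Ideal.Quotient.mk G f) = Ideal.Quotient.mk J (io n k f) := rfl

theorem qmap_surjective (G : Ideal (MvPolynomial (Fin n) k))
    (J : Ideal (MvPowerSeries (Fin n) k)) (h : G ≤ J.comap (io n k)) {E : ℕ}
    (hE : mR n k ^ E ≤ J) : Function.Surjective (qmap G J h) := by
  intro x
  obtain ⟨f, rfl⟩ := Ideal.Quotient.mk_surjective x
  obtain ⟨p, hp⟩ := exists_poly E f
  refine ⟨Ideal.Quotient.mk G p, ?_⟩
  rw [qmap_mk]
  symm
  rw [Ideal.Quotient.eq]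
  exact hE hp

instance isLocalHomC : IsLocalHom (algebraMap k (MvPowerSeries (Fin n) k)) :=
  inferInstance

/-- The length over the power series ring is the dimension. -/
theorem length_eq {M : Type} [AddCommGroup M] [Module (MvPowerSeries (Fin n) k) M] [Module k M]
    [IsScalarTower k (MvPowerSeries (Fin n) k) M] :
    Module.length (MvPowerSeries (Fin n) k) M = Module.length k M := by
  have h := IsLocalRing.length_restrictScalars k (MvPowerSeries (Fin n) k) M
  have hsurj : Function.Surjective (algebraMap (IsLocalRing.ResidueField k)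
      (IsLocalRing.ResidueField (MvPowerSeries (Fin n) k))) := by
    intro x
    obtain ⟨r, rfl⟩ := IsLocalRing.residue_surjective x
    refine ⟨IsLocalRing.residue k (MvPowerSeries.constantCoeff r), ?_⟩
    rw [IsLocalRing.ResidueField.algebraMap_residue, ← sub_eq_zero, ← map_sub,
      IsLocalRing.residue_eq_zero_iff, IsLocalRing.mem_maximalIdeal, mem_nonunits_iff,
      MvPowerSeries.isUnit_iff_constantCoeff]
    simp [MvPowerSeries.algebraMap_apply]
  have h1 : Module.length (IsLocalRing.ResidueField k)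
      (IsLocalRing.ResidueField (MvPowerSeries (Fin n) k)) = 1 := by
    rw [Module.length_eq_of_surjective (R := IsLocalRing.ResidueField (MvPowerSeries (Fin n) k))
      hsurj]
    simp
  rw [h1, mul_one] at h
  exact h.symm

/-- The length of a quotient by an ideal containing a power of the maximal ideal. -/
theorem fd_of_surj (G : Ideal (MvPolynomial (Fin n) k)) (hG : Cof G)
    (J : Ideal (MvPowerSeries (Fin n) k)) (h : G ≤ J.comap (io n k)) {E : ℕ}
    (hE : mR n k ^ E ≤ J) :
    Module.Finite k (MvPowerSeries (Fin n) k ⧸ J) ∧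
      Module.finrank k (MvPowerSeries (Fin n) k ⧸ J) ≤ dq G := by
  have := hG.fd
  have hs := qmap_surjective G J h hE
  refine ⟨Module.Finite.of_surjective _ hs, ?_⟩
  exact LinearMap.finrank_le_finrank_of_surjective hs

theorem toNat_length {J : Ideal (MvPowerSeries (Fin n) k)}
    (h : Module.Finite k (MvPowerSeries (Fin n) k ⧸ J)) :
    (Module.length (MvPowerSeries (Fin n) k) (MvPowerSeries (Fin n) k ⧸ J)).toNat =
      Module.finrank k (MvPowerSeries (Fin n) k ⧸ J) := by
  rw [length_eq (k := k), Module.length_eq_finrank, ENat.toNat_natCast]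

/-- The main theorem in a form close to the statement. -/
theorem main_ps [Infinite k] (d : ℕ) (I : Ideal (MvPowerSeries (Fin (d + 1)) k))
    (hI : I.radical = Ideal.span (Set.range
      (MvPowerSeries.X : Fin (d + 1) → MvPowerSeries (Fin (d + 1)) k))) :
    ∃ P : MvPolynomial (Fin d × Fin (d + 1)) k, P ≠ 0 ∧
      ∀ c : Fin d → Fin (d + 1) → k, MvPolynomial.eval (fun p => c p.1 p.2) P ≠ 0 →
        ∀ e : Fin d → ℝ,
          (∀ i : Fin d, Filter.Tendsto
            (fun n : ℕ => ((Nat.factorial (d + 1 - i.val) : ℝ) *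
              ((Module.length (MvPowerSeries (Fin (d + 1)) k)
                (MvPowerSeries (Fin (d + 1)) k ⧸
                  (I ^ n ⊔ Ideal.span {f : MvPowerSeries (Fin (d + 1)) k |
                    ∃ j : Fin d, j.val < i.val ∧
                      f = ∑ t : Fin (d + 1), c j t •
                        (MvPowerSeries.X t : MvPowerSeries (Fin (d + 1)) k)}))).toNat : ℝ))
              / (n : ℝ) ^ (d + 1 - i.val))
            Filter.atTop (nhds (e i))) →
          ∑ i : Fin d, ((ascPochhammer ℕ (d + 1)).coeff (d + 1 - i.val) : ℝ) * e i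
            ≤ (Nat.factorial (d + 1) : ℝ) *
              ((Module.length (MvPowerSeries (Fin (d + 1)) k)
                (MvPowerSeries (Fin (d + 1)) k ⧸ I)).toNat : ℝ) := by
  classical
  -- a power of the maximal ideal is contained in I
  obtain ⟨D, hD⟩ : ∃ D, mR (d + 1) k ^ D ≤ I := by
    have hfg : I.radical.FG := by
      rw [hI]
      exact Submodule.fg_span (Set.finite_range _)
    obtain ⟨D, hD⟩ := I.exists_radical_pow_le_of_fg hfg
    rw [hI] at hD
    exact ⟨D, hD⟩
  set I' : Ideal (MvPolynomial (Fin (d + 1)) k) := I.comap (io (d + 1) k) with hI'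
  have hI'D : mI (d + 1) k ^ D ≤ I' := by
    rw [hI', ← Ideal.map_le_iff_le_comap, Ideal.map_pow, map_mI]
    exact hD
  have hCof : Cof I' := ⟨D, hI'D⟩
  have hne : I' ≠ ⊤ := by
    intro h
    have h1 : I = ⊤ := by
      rw [Ideal.eq_top_iff_one]
      have : (1 : MvPolynomial (Fin (d + 1)) k) ∈ I' := by rw [h]; trivial
      rw [hI', Ideal.mem_comap, map_one] at this
      exact this
    rw [h1, Ideal.radical_top] at hI
    have h2 : mR (d + 1) k ≤ RingHom.ker (MvPowerSeries.constantCoeff
        (σ := Fin (d + 1)) (R := k)) := by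
      rw [Ideal.span_le]
      rintro _ ⟨j, rfl⟩
      simp [RingHom.mem_ker]
    have h3 : (1 : MvPowerSeries (Fin (d + 1)) k) ∈ mR (d + 1) k := by
      have h4 : (1 : MvPowerSeries (Fin (d + 1)) k) ∈
          (⊤ : Ideal (MvPowerSeries (Fin (d + 1)) k)) := trivial
      rw [hI] at h4
      exact h4
    have := h2 h3
    rw [RingHom.mem_ker, map_one] at this
    exact one_ne_zero this
  obtain ⟨P, hP0, hP⟩ := main_poly hCof hne
  refine ⟨P, hP0, fun c hc e he => ?_⟩
  obtain ⟨hbc, hmain⟩ := hP c hc
  -- lengths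
  have hlen : ∀ (i : Fin d) (N : ℕ),
      (Module.length (MvPowerSeries (Fin (d + 1)) k)
        (MvPowerSeries (Fin (d + 1)) k ⧸
          (I ^ N ⊔ Ideal.span {f : MvPowerSeries (Fin (d + 1)) k |
            ∃ j : Fin d, j.val < i.val ∧
              f = ∑ t : Fin (d + 1), c j t •
                (MvPowerSeries.X t : MvPowerSeries (Fin (d + 1)) k)}))).toNat ≤
        dq (I' ^ N ⊔ Li i c) := by
    intro i N
    set L : Ideal (MvPowerSeries (Fin (d + 1)) k) := Ideal.span
      {f : MvPowerSeries (Fin (d + 1)) k | ∃ j : Fin d, j.val < i.val ∧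
        f = ∑ t : Fin (d + 1), c j t •
          (MvPowerSeries.X t : MvPowerSeries (Fin (d + 1)) k)} with hL
    have h1 : I' ^ N ⊔ Li i c ≤ (I ^ N ⊔ L).comap (io (d + 1) k) := by
      rw [← Ideal.map_le_iff_le_comap, Ideal.map_sup, Ideal.map_pow]
      refine sup_le_sup (Ideal.pow_right_mono Ideal.map_comap_le N) ?_
      unfold Li
      rw [Ideal.map_span, Ideal.span_le]
      rintro _ ⟨_, ⟨j, hj, rfl⟩, rfl⟩
      apply Ideal.subset_span
      refine ⟨j, hj, ?_⟩
      unfold lin
      rw [map_sum]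
      apply Finset.sum_congr rfl
      intro t _
      rw [map_mul]
      simp [MvPowerSeries.smul_eq_C_mul]
    have h2 : mR (d + 1) k ^ (D * N) ≤ I ^ N ⊔ L := by
      rw [pow_mul]
      exact (Ideal.pow_right_mono hD N).trans le_sup_left
    obtain ⟨h3, h4⟩ := fd_of_surj (I' ^ N ⊔ Li i c) ((hCof.pow N).mono le_sup_left) _ h1 h2
    rw [toNat_length h3]
    exact h4
  have hlen0 : dq I' ≤ (Module.length (MvPowerSeries (Fin (d + 1)) k)
      (MvPowerSeries (Fin (d + 1)) k ⧸ I)).toNat := by
    obtain ⟨h3, _⟩ := fd_of_surj I' hCof I le_rfl hD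
    rw [toNat_length h3]
    have hinj : Function.Injective (qmap I' I le_rfl) := by
      rw [injective_iff_map_eq_zero]
      intro x hx
      obtain ⟨f, rfl⟩ := Ideal.Quotient.mk_surjective x
      rw [qmap_mk, Ideal.Quotient.eq_zero_iff_mem] at hx
      rw [Ideal.Quotient.eq_zero_iff_mem]
      exact hx
    exact LinearMap.finrank_le_finrank_of_injective hinj
  have hbound : ∀ (i : Fin d) (N : ℕ), 0 < N →
      e i ≤ (Nat.factorial (d + 1 - i) : ℝ) * (dq (I' ^ N ⊔ Li i c) : ℝ) /
        (N : ℝ) ^ (d + 1 - (i : ℕ)) := by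
    intro i N hN
    have hsub : Filter.Tendsto (fun t : ℕ => N * (t + 1)) Filter.atTop Filter.atTop := by
      apply Filter.tendsto_atTop_mono (f := fun t : ℕ => t)
      · intro t
        have : t + 1 ≤ N * (t + 1) := Nat.le_mul_of_pos_left _ hN
        omega
      · exact Filter.tendsto_id
    have hlim := (he i).comp hsub
    refine le_of_tendsto' hlim ?_
    intro t
    simp only [Function.comp]
    have h1 := (hlen i (N * (t + 1))).trans (lech_gen hCof hbc i i.2.le N (t + 1) (Nat.succ_pos t))
    have h2 : ((Module.length (MvPowerSeries (Fin (d + 1)) k)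
        (MvPowerSeries (Fin (d + 1)) k ⧸
          (I ^ (N * (t + 1)) ⊔ Ideal.span {f : MvPowerSeries (Fin (d + 1)) k |
            ∃ j : Fin d, j.val < i.val ∧
              f = ∑ t : Fin (d + 1), c j t •
                (MvPowerSeries.X t : MvPowerSeries (Fin (d + 1)) k)}))).toNat : ℝ) ≤
        ((t + 1 : ℕ) : ℝ) ^ (d + 1 - (i : ℕ)) * (dq (I' ^ N ⊔ Li i c) : ℝ) := by
      exact_mod_cast h1
    have hNpos : (0 : ℝ) < (N : ℝ) ^ (d + 1 - (i : ℕ)) := by positivity
    have htpos : (0 : ℝ) < ((t + 1 : ℕ) : ℝ) ^ (d + 1 - (i : ℕ)) := by positivity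
    rw [Nat.cast_mul, mul_pow, div_le_div_iff₀ (by positivity) hNpos]
    calc _ ≤ (Nat.factorial (d + 1 - i.val) : ℝ) *
        (((t + 1 : ℕ) : ℝ) ^ (d + 1 - (i : ℕ)) * (dq (I' ^ N ⊔ Li i c) : ℝ)) *
          (N : ℝ) ^ (d + 1 - (i : ℕ)) := by
          apply mul_le_mul_of_nonneg_right _ hNpos.le
          exact mul_le_mul_of_nonneg_left h2 (by positivity)
      _ = _ := by ring
  refine (hmain e hbound).trans ?_
  apply mul_le_mul_of_nonneg_left _ (by positivity)
  exact_mod_cast hlen0

end Pool.Agent.Y236.SL
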