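import Pool.Agent.Y236.Comb

/-!
# The closure of a set of exponents and counting outside its powers
-/

set_option autoImplicit false

namespace Pool.Agent.Y236.SL

open Finset

variable {n : ℕ}

/-- Exponents dominated from below by a sum of `s` elements of `M`. -/
def PowSet (M : Set (Fin n →₀ ℕ)) (s : ℕ) : Set (Fin n →₀ ℕ) :=
  {u | ∃ t : Multiset (Fin n →₀ ℕ), t.card = s ∧ (∀ x ∈ t, x ∈ M) ∧ t.sum ≤ u}

theorem PowSet_zero (M : Set (Fin n →₀ ℕ)) (u : Fin n →₀ ℕ) : u ∈ PowSet M 0 :=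
  ⟨0, by simp, by simp, by simp⟩

theorem PowSet_one {M : Set (Fin n →₀ ℕ)} {u : Fin n →₀ ℕ} (h : u ∈ M) : u ∈ PowSet M 1 :=
  ⟨{u}, by simp, by simpa using h, by simp⟩

theorem PowSet_up {M : Set (Fin n →₀ ℕ)} {s : ℕ} {u w : Fin n →₀ ℕ} (h : u ∈ PowSet M s)
    (hw : u ≤ w) : w ∈ PowSet M s := by
  obtain ⟨t, h1, h2, h3⟩ := h
  exact ⟨t, h1, h2, h3.trans hw⟩

theorem PowSet_add {M : Set (Fin n →₀ ℕ)} {s r : ℕ} {u w : Fin n →₀ ℕ} (hu : u ∈ PowSet M s)
    (hw : w ∈ PowSet M r) : u + w ∈ PowSet M (s + r) := by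
  obtain ⟨t, h1, h2, h3⟩ := hu
  obtain ⟨t', h1', h2', h3'⟩ := hw
  refine ⟨t + t', by simp [h1, h1'], ?_, ?_⟩
  · intro x hx
    rcases Multiset.mem_add.1 hx with hx | hx
    · exact h2 x hx
    · exact h2' x hx
  · rw [Multiset.sum_add]
    exact add_le_add h3 h3'

theorem PowSet_anti {M : Set (Fin n →₀ ℕ)} {s r : ℕ} {u : Fin n →₀ ℕ} (hu : u ∈ PowSet M s)
    (hr : r ≤ s) : u ∈ PowSet M r := by
  induction s, hr using Nat.le_induction with
  | base => exact hu
  | succ s hs ih =>
    apply ih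
    obtain ⟨t, h1, h2, h3⟩ := hu
    obtain ⟨x, hx⟩ : ∃ x, x ∈ t := Multiset.card_pos_iff_exists_mem.1 (by omega)
    obtain ⟨t', rfl⟩ := Multiset.exists_cons_of_mem hx
    rw [Multiset.card_cons] at h1
    refine ⟨t', by omega, fun y hy => h2 y (Multiset.mem_cons_of_mem hy), le_trans ?_ h3⟩
    rw [Multiset.sum_cons]
    exact le_add_self

theorem PowSet_nsmul {M : Set (Fin n →₀ ℕ)} {s : ℕ} {u : Fin n →₀ ℕ} (hu : u ∈ PowSet M s)
    (a : ℕ) : a • u ∈ PowSet M (a * s) := by
  induction a with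
  | zero => rw [zero_mul]; exact PowSet_zero _ _
  | succ a ih =>
    rw [succ_nsmul, Nat.succ_mul]
    exact PowSet_add ih hu

/-- Full moves of mass from index `j` to index `i`. -/
noncomputable def fm (i j : Fin n) (v : Fin n →₀ ℕ) : Fin n →₀ ℕ :=
  v.mapDomain (Function.update id j i)

theorem fm_add (i j : Fin n) (v w : Fin n →₀ ℕ) : fm i j (v + w) = fm i j v + fm i j w :=
  Finsupp.mapDomain_add

theorem fm_mono (i j : Fin n) {v w : Fin n →₀ ℕ} (h : v ≤ w) : fm i j v ≤ fm i j w := by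
  obtain ⟨c, rfl⟩ := exists_add_of_le h
  rw [fm_add]
  exact le_self_add

theorem fm_nsmul (i j : Fin n) (a : ℕ) (v : Fin n →₀ ℕ) : fm i j (a • v) = a • fm i j v := by
  induction a with
  | zero => simp [fm]
  | succ a ih => rw [succ_nsmul, fm_add, ih, succ_nsmul]

theorem fm_sum (i j : Fin n) (t : Multiset (Fin n →₀ ℕ)) :
    fm i j t.sum = (t.map (fm i j)).sum := by
  induction t using Multiset.induction_on with
  | empty => simp [fm]
  | cons a t ih => rw [Multiset.sum_cons, fm_add, ih, Multiset.map_cons, Multiset.sum_cons]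

/-- Closed under full moves. -/
def FullMove (M : Set (Fin n →₀ ℕ)) : Prop :=
  ∀ v ∈ M, ∀ i j : Fin n, i < j → fm i j v ∈ M

theorem PowSet_fm {M : Set (Fin n →₀ ℕ)} (hM : FullMove M) {s : ℕ} {u : Fin n →₀ ℕ}
    (hu : u ∈ PowSet M s) {i j : Fin n} (hij : i < j) : fm i j u ∈ PowSet M s := by
  obtain ⟨t, h1, h2, h3⟩ := hu
  refine ⟨t.map (fm i j), by simp [h1], ?_, ?_⟩
  · intro x hx
    obtain ⟨y, hy, rfl⟩ := Multiset.mem_map.1 hx
    exact hM y (h2 y hy) i j hij
  · rw [← fm_sum]
    exact fm_mono i j h3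

/-- The closure of `M`. -/
def Cl (M : Set (Fin n →₀ ℕ)) : Set (Fin n →₀ ℕ) := {v | ∃ s, 1 ≤ s ∧ s • v ∈ PowSet M s}

theorem subset_Cl (M : Set (Fin n →₀ ℕ)) : M ⊆ Cl M := by
  intro v hv
  exact ⟨1, le_rfl, by rw [one_nsmul]; exact PowSet_one hv⟩

theorem fm_split (v : Fin n →₀ ℕ) (i j : Fin n) (hij : i < j) (b : ℕ) (hb : v j = b)  :
    (b + 1) • (v + Finsupp.single i 1) =
      b • (v + Finsupp.single j 1) + fm i j (v + Finsupp.single j 1) := by
  classical
  have hne : i ≠ j := ne_of_lt hij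
  have h1 : fm i j (v + Finsupp.single j 1) = (v.erase j) + Finsupp.single i (b + 1) := by
    have h2 : v + Finsupp.single j 1 = v.erase j + Finsupp.single j (b + 1) := by
      conv_lhs => rw [← Finsupp.erase_add_single j v]
      rw [add_assoc, ← Finsupp.single_add, hb]
    rw [h2, fm_add]
    congr 1
    · unfold fm
      conv_rhs => rw [← Finsupp.mapDomain_id (v := v.erase j)]
      apply Finsupp.mapDomain_congr
      intro x hx
      have : x ≠ j := by
        rintro rfl
        simp at hx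
      simp [Function.update_of_ne this]
    · unfold fm
      rw [Finsupp.mapDomain_single]
      simp
  rw [h1]
  ext k
  simp only [Finsupp.smul_apply, Finsupp.add_apply, smul_eq_mul, Finsupp.single_apply,
    Finsupp.erase]
  by_cases hk : k = j
  · subst hk
    simp [hne, hb]
    ring
  · by_cases hk' : i = k
    · subst hk'
      simp [hk]
      simp [Ne.symm hk]
      ring
    · simp [hk, hk', Ne.symm hk]
      ring

theorem Cl_stable {M : Set (Fin n →₀ ℕ)} (hM : FullMove M) : Stable (Cl M) where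
  up := by
    rintro v ⟨s, hs, h⟩ w hw
    exact ⟨s, hs, PowSet_up h (nsmul_le_nsmul_right hw s)⟩
  move := by
    rintro v i j hij ⟨s, hs, h⟩
    refine ⟨(v j + 1) * s, Nat.mul_pos (Nat.succ_pos _) hs, ?_⟩
    rw [mul_comm (v j + 1) s, mul_nsmul', fm_split v i j hij (v j) rfl, nsmul_add,
      ← fm_nsmul, ← mul_nsmul', mul_comm s (v j), mul_nsmul' , Nat.mul_add, mul_one, mul_comm s]
    exact PowSet_add (PowSet_nsmul h _) (PowSet_fm hM h hij)

theorem zero_not_mem_Cl {M : Set (Fin n →₀ ℕ)} (h0 : (0 : Fin n →₀ ℕ) ∉ M) :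
    (0 : Fin n →₀ ℕ) ∉ Cl M := by
  rintro ⟨s, hs, t, h1, h2, h3⟩
  rw [nsmul_zero] at h3
  obtain ⟨x, hx⟩ : ∃ x, x ∈ t := Multiset.card_pos_iff_exists_mem.1 (by omega)
  have h4 : x ≤ t.sum := Multiset.single_le_sum (fun _ _ => by simp) x hx
  have : x = 0 := le_antisymm (h4.trans h3) (by simp)
  exact h0 (this ▸ h2 x hx)

theorem exists_uniform {M : Set (Fin n →₀ ℕ)} (hM : Mᶜ.Finite) :
    ∃ s, 1 ≤ s ∧ ∀ v ∈ Cl M, s • v ∈ PowSet M s := by
  classical
  have hex : ∀ v : Fin n →₀ ℕ, ∃ s, 1 ≤ s ∧ (v ∈ Cl M → s • v ∈ PowSet M s) := by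
    intro v
    by_cases hv : v ∈ Cl M
    · obtain ⟨s, hs, h⟩ := hv
      exact ⟨s, hs, fun _ => h⟩
    · exact ⟨1, le_rfl, fun h => absurd h hv⟩
  choose f hf1 hf2 using hex
  refine ⟨∏ v ∈ hM.toFinset, f v, ?_, ?_⟩
  · exact Finset.one_le_prod' (fun v _ => hf1 v)
  · intro v hv
    by_cases hvM : v ∈ M
    · have := PowSet_nsmul (PowSet_one hvM) (∏ v ∈ hM.toFinset, f v)
      rwa [mul_one] at this
    · have hmem : v ∈ hM.toFinset := by simpa using hvM
      rw [← Finset.mul_prod_erase _ _ hmem, mul_comm]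
      have := PowSet_nsmul (hf2 v hv) (∏ x ∈ hM.toFinset.erase v, f x)
      rwa [← mul_nsmul'] at this

theorem exists_const {M : Set (Fin n →₀ ℕ)} (hM : Mᶜ.Finite) :
    ∃ C : ℕ, ∀ t : Multiset (Fin n →₀ ℕ), (∀ x ∈ t, x ∈ Cl M) →
      t.sum ∈ PowSet M (t.card - C) := by
  classical
  obtain ⟨s, hs, hsv⟩ := exists_uniform hM
  refine ⟨s * hM.toFinset.card, ?_⟩
  intro t
  induction ht : t.card using Nat.strong_induction_on generalizing t with
  | _ N ih =>
  intro hmem
  by_cases hN : N ≤ s * hM.toFinset.card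
  · rw [Nat.sub_eq_zero_of_le hN]
    exact PowSet_zero _ _
  · by_cases hx : ∃ x ∈ t, x ∈ M
    · obtain ⟨x, hx, hxM⟩ := hx
      obtain ⟨t', rfl⟩ := Multiset.exists_cons_of_mem hx
      rw [Multiset.card_cons] at ht
      have h1 := ih t'.card (by omega) t' rfl
        (fun y hy => hmem y (Multiset.mem_cons_of_mem hy))
      rw [Multiset.sum_cons]
      refine PowSet_anti (PowSet_add (PowSet_one hxM) h1) ?_
      omega
    · push Not at hx
      have hsub : t.toFinset ⊆ hM.toFinset := by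
        intro x hxt
        rw [Multiset.mem_toFinset] at hxt
        simpa using hx x hxt
      have hcount : ∃ v ∈ t.toFinset, s ≤ t.count v := by
        by_contra hcon
        push Not at hcon
        have h1 := Multiset.toFinset_sum_count_eq t
        have h2 : ∑ a ∈ t.toFinset, t.count a ≤ ∑ a ∈ t.toFinset, s :=
          Finset.sum_le_sum (fun a ha => (hcon a ha).le)
        rw [Finset.sum_const, smul_eq_mul] at h2
        have h3 := Nat.mul_le_mul_right s (Finset.card_le_card hsub)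
        rw [mul_comm _ s, mul_comm _ s] at h3
        rw [mul_comm _ s] at h2
        omega
      obtain ⟨v, hv, hc⟩ := hcount
      rw [Multiset.le_count_iff_replicate_le] at hc
      obtain ⟨t', rfl⟩ := Multiset.le_iff_exists_add.1 hc
      rw [Multiset.card_add, Multiset.card_replicate] at ht
      have h1 := ih t'.card (by omega) t' rfl
        (fun y hy => hmem y (Multiset.mem_add.2 (Or.inr hy)))
      rw [Multiset.sum_add, Multiset.sum_replicate]
      rw [Multiset.mem_toFinset] at hv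
      refine PowSet_anti (PowSet_add (hsv v (hmem v hv)) h1) ?_
      omega

theorem hermite (N a : ℕ) (hN : 0 < N) : ∑ t ∈ Finset.range N, (a + t) / N = a := by
  induction a with
  | zero =>
    apply Finset.sum_eq_zero
    intro t ht
    rw [Finset.mem_range] at ht
    rw [zero_add]
    exact Nat.div_eq_of_lt ht
  | succ a ih =>
    have h1 : ∑ t ∈ Finset.range (N + 1), (a + t) / N =
        ∑ t ∈ Finset.range N, (a + t) / N + (a + N) / N := Finset.sum_range_succ _ _
    have h2 : ∑ t ∈ Finset.range (N + 1), (a + t) / N =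
        ∑ t ∈ Finset.range N, (a + (t + 1)) / N + (a + 0) / N := Finset.sum_range_succ' _ _
    have h3 : (a + N) / N = a / N + 1 := Nat.add_div_right a hN
    have h4 : ∑ t ∈ Finset.range N, (a + 1 + t) / N = ∑ t ∈ Finset.range N, (a + (t + 1)) / N := by
      apply Finset.sum_congr rfl
      intro t _
      congr 1
      ring
    rw [h4]
    simp only [add_zero] at h2
    omega

/-- The parts of an exponent vector. -/
noncomputable def part (N t : ℕ) (u : Fin n →₀ ℕ) : Fin n →₀ ℕ :=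
  dif (fun k => (psum u k + t) / N)

theorem psum_part (N t : ℕ) (u : Fin n →₀ ℕ) (k : Fin n) :
    psum (part N t u) k = (psum u k + t) / N := by
  unfold part
  rw [psum_dif]
  intro a b hab
  exact Nat.div_le_div_right (Nat.add_le_add_right (psum_mono u hab) t)

theorem sum_part (N : ℕ) (hN : 0 < N) (u : Fin n →₀ ℕ) :
    ∑ t ∈ Finset.range N, part N t u = u := by
  apply psum_injective
  rw [psum_sum]
  funext k
  rw [Finset.sum_apply, Finset.sum_congr rfl (fun t _ => psum_part N t u k), hermite N _ hN]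

theorem mem_PowSet_of_part {M : Set (Fin n →₀ ℕ)} (hF : FullMove M) {C : ℕ}
    (hC : ∀ t : Multiset (Fin n →₀ ℕ), (∀ x ∈ t, x ∈ Cl M) → t.sum ∈ PowSet M (t.card - C))
    (N : ℕ) (u : Fin n →₀ ℕ) (h : part (N + C) 0 u ∈ Cl M) : u ∈ PowSet M N := by
  rcases Nat.eq_zero_or_pos N with rfl | hN
  · exact PowSet_zero _ _
  have h1 := hC ((Finset.range (N + C)).val.map (fun t => part (N + C) t u)) (by
    intro x hx
    obtain ⟨t, _, rfl⟩ := Multiset.mem_map.1 hx
    refine (Cl_stable hF).dom _ _ h ?_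
    intro k
    rw [psum_part, psum_part]
    exact Nat.div_le_div_right (by omega))
  rw [Multiset.card_map, Finset.card_val, Finset.card_range, Nat.add_sub_cancel] at h1
  have h2 : ((Finset.range (N + C)).val.map (fun t => part (N + C) t u)).sum = u :=
    sum_part (N + C) (by omega) u
  rwa [h2] at h1

theorem ext_comp_mem {S : Set (Fin n →₀ ℕ)} {m : ℕ} (hm : m ≤ n) {f : Fin m → ℕ}
    (hf : f ∈ Om S m) (σ : Equiv.Perm (Fin m)) : f ∘ σ ∈ Om S m := by
  classical
  let e : Fin m ≃ {x : Fin n // (x : ℕ) < m} :=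
    { toFun := fun x => ⟨⟨x.1, lt_of_lt_of_le x.2 hm⟩, x.2⟩
      invFun := fun x => ⟨x.1, x.2⟩
      left_inv := fun x => rfl
      right_inv := fun x => rfl }
  have h := Otil_comp hf (σ.extendDomain e)
  have h2 : ext n f ∘ (σ.extendDomain e) = ext n (f ∘ σ) := by
    funext k
    by_cases hk : (k : ℕ) < m
    · have h3 : k = (e ⟨k, hk⟩ : Fin n) := rfl
      have h4 : (σ.extendDomain e) k = (e (σ ⟨k, hk⟩) : Fin n) := by
        conv_lhs => rw [h3]
        exact Equiv.Perm.extendDomain_apply_image σ e ⟨k, hk⟩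
      simp only [Function.comp_apply]
      rw [h4]
      simp only [ext, e]
      simp [hk]
    · have h4 : (σ.extendDomain e) k = k :=
        Equiv.Perm.extendDomain_apply_not_subtype σ e hk
      simp only [Function.comp_apply]
      rw [h4]
      simp only [ext, hk, dif_neg, not_false_eq_true]
      apply le_antisymm
      · apply Finset.sup_le
        intro b _
        have h6 := Finset.le_sup (f := f ∘ σ) (Finset.mem_univ (σ⁻¹ b))
        have h7 : (f ∘ σ) (σ⁻¹ b) = f b := by simp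
        rwa [h7] at h6
      · apply Finset.sup_le
        intro b _
        exact Finset.le_sup (f := f) (Finset.mem_univ (σ b))
  rw [h2] at h
  exact h

/-- Counting exponents on the first `m` coordinates outside the power set. -/
theorem count_le {M : Set (Fin n →₀ ℕ)} (hF : FullMove M) (hM : Mᶜ.Finite) {C : ℕ}
    (hC : ∀ t : Multiset (Fin n →₀ ℕ), (∀ x ∈ t, x ∈ Cl M) → t.sum ∈ PowSet M (t.card - C))
    (N : ℕ) (hN : 0 < N) (m : ℕ) (hm : m ≤ n) :
    {u : Fin n →₀ ℕ | (∀ k : Fin n, m ≤ k → u k = 0) ∧ u ∉ PowSet M N}.Finite ∧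
    {u : Fin n →₀ ℕ | (∀ k : Fin n, m ≤ k → u k = 0) ∧ u ∉ PowSet M N}.ncard * m.factorial ≤
      (N + C + m) ^ m * (Om (Cl M) m).ncard := by
  classical
  have hClf : (Cl M)ᶜ.Finite := hM.subset (Set.compl_subset_compl.2 (subset_Cl M))
  have hSt := Cl_stable hF
  have hOf : (Om (Cl M) m).Finite := Om_finite hClf hm
  set B := N + C + m with hB
  have hBpos : 0 < B := by omega
  -- all vectors
  let W : Set (Fin m → ℕ) := {h | (fun k => h k / B) ∈ Om (Cl M) m}
  have hW : W.Finite ∧ W.ncard ≤ B ^ m * (Om (Cl M) m).ncard := by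
    let P : Set ((Fin m → ℕ) × (Fin m → Fin B)) := (Om (Cl M) m) ×ˢ Set.univ
    have hPf : P.Finite := hOf.prod Set.finite_univ
    let φ : (Fin m → ℕ) → (Fin m → ℕ) × (Fin m → Fin B) :=
      fun h => (fun k => h k / B, fun k => ⟨h k % B, Nat.mod_lt _ hBpos⟩)
    have hmaps : ∀ h ∈ W, φ h ∈ P := fun h hh => ⟨hh, Set.mem_univ _⟩
    have hinj : Set.InjOn φ W := by
      intro a _ b _ hab
      funext k
      have h1 : a k / B = b k / B := congrFun (congrArg Prod.fst hab) k
      have h2 : (⟨a k % B, _⟩ : Fin B) = ⟨b k % B, _⟩ := congrFun (congrArg Prod.snd hab) k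
      have h3 : a k % B = b k % B := congrArg Fin.val h2
      rw [← Nat.div_add_mod (a k) B, ← Nat.div_add_mod (b k) B, h1, h3]
    refine ⟨Set.Finite.of_injOn hmaps hinj hPf, ?_⟩
    calc W.ncard ≤ P.ncard := Set.ncard_le_ncard_of_injOn φ hmaps hinj hPf
      _ = _ := by
        rw [Set.ncard_prod, Set.ncard_univ, Nat.card_eq_fintype_card, Fintype.card_fun,
          Fintype.card_fin, Fintype.card_fin, mul_comm]
  let T : Set (Fin m → ℕ) := {h | StrictMono h ∧ h ∈ W}
  have hTf : T.Finite := hW.1.subset (fun h hh => hh.2)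
  have hT : T.ncard * m.factorial ≤ W.ncard := by
    let P : Set ((Fin m → ℕ) × Equiv.Perm (Fin m)) := T ×ˢ Set.univ
    have hPc : P.ncard = T.ncard * m.factorial := by
      rw [Set.ncard_prod, Set.ncard_univ, Nat.card_eq_fintype_card, Fintype.card_perm,
        Fintype.card_fin]
    rw [← hPc]
    refine Set.ncard_le_ncard_of_injOn (fun p => p.1 ∘ p.2) ?_ ?_ hW.1
    · rintro ⟨h, σ⟩ ⟨hh, _⟩
      exact ext_comp_mem hm hh.2 σ
    · rintro ⟨h, σ⟩ ⟨hh, _⟩ ⟨h', σ'⟩ ⟨hh', _⟩ heq
      simp only at heq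
      have h1 : h = h' := by
        rw [← hh.1.range_inj hh'.1, ← EquivLike.range_comp h σ, ← EquivLike.range_comp h' σ', heq]
      subst h1
      have h2 : σ = σ' := by
        ext k
        have := congrFun heq k
        exact congrArg Fin.val (hh.1.injective this)
      rw [h2]
  let U : Set (Fin n →₀ ℕ) :=
    {u : Fin n →₀ ℕ | (∀ k : Fin n, m ≤ k → u k = 0) ∧ u ∉ PowSet M N}
  let ψ : (Fin n →₀ ℕ) → (Fin m → ℕ) :=
    fun u k => psum u ⟨k, lt_of_lt_of_le k.2 hm⟩ + k
  have hmaps : ∀ u ∈ U, ψ u ∈ T := by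
    rintro u ⟨_, hu2⟩
    refine ⟨?_, ?_⟩
    · intro a b hab
      have h1 : psum u ⟨a, lt_of_lt_of_le a.2 hm⟩ ≤ psum u ⟨b, lt_of_lt_of_le b.2 hm⟩ :=
        psum_mono u (by rw [Fin.le_def]; exact (Fin.lt_def.1 hab).le)
      have h2 : (a : ℕ) < b := hab
      simp only [ψ]
      omega
    · have hnot : part (N + C) 0 u ∉ Cl M := fun hcon => hu2 (mem_PowSet_of_part hF hC N u hcon)
      have hO : psum (part (N + C) 0 u) ∈ Otil (Cl M) := ⟨1, _, hnot, by simp⟩
      have hN' : 0 < N + C := by omega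
      refine Otil_lower hSt hO ?_
      have hkey : ∀ k : Fin m, (psum u ⟨k, lt_of_lt_of_le k.2 hm⟩ + k) / B ≤
          psum u ⟨k, lt_of_lt_of_le k.2 hm⟩ / (N + C) := by
        intro k
        rw [Nat.le_div_iff_mul_le hN']
        set a := psum u ⟨k, lt_of_lt_of_le k.2 hm⟩ with ha
        set q := (a + k) / B with hq
        have h1 : q * B ≤ a + k := Nat.div_mul_le_self _ _
        have h2 : (k : ℕ) < m := k.2
        rcases Nat.eq_zero_or_pos q with hq0 | hq0
        · rw [hq0]; simp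
        · have h3 : q * B = q * (N + C) + q * m := by rw [hB]; ring
          have h4 : m ≤ q * m := Nat.le_mul_of_pos_left m hq0
          omega
      intro k
      rw [psum_part, add_zero]
      unfold ext
      split_ifs with hk
      · exact hkey ⟨k, hk⟩
      · apply Finset.sup_le
        intro b _
        refine (hkey b).trans ?_
        apply Nat.div_le_div_right
        apply psum_mono
        rw [Fin.le_def]
        have := b.2
        simp only
        omega
  have hinj : Set.InjOn ψ U := by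
    rintro u ⟨hu1, _⟩ w ⟨hw1, _⟩ huw
    have hps : ∀ k : ℕ, ∀ h : k < m, psum u ⟨k, lt_of_lt_of_le h hm⟩ =
        psum w ⟨k, lt_of_lt_of_le h hm⟩ := by
      intro k h
      have := congrFun huw ⟨k, h⟩
      simp only [ψ] at this
      omega
    ext ⟨k, hk⟩
    by_cases hkm : k < m
    · cases k with
      | zero =>
        have := hps 0 hkm
        rwa [psum_zero, psum_zero] at this
      | succ k =>
        have h1 := hps (k + 1) hkm
        have h2 := hps k (by omega)
        rw [psum_succ, psum_succ, h2] at h1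
        omega
    · rw [hu1 ⟨k, hk⟩ (by simpa using hkm), hw1 ⟨k, hk⟩ (by simpa using hkm)]
  have hUf : U.Finite := Set.Finite.of_injOn hmaps hinj hTf
  refine ⟨hUf, ?_⟩
  have h5 : U.ncard ≤ T.ncard := Set.ncard_le_ncard_of_injOn ψ hmaps hinj hTf
  calc U.ncard * m.factorial ≤ T.ncard * m.factorial := Nat.mul_le_mul_right _ h5
    _ ≤ W.ncard := hT
    _ ≤ _ := hW.2

end Pool.Agent.Y236.SL
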