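import Mathlib

/-!
# The generating polynomial of the number of cycles of permutations
-/

set_option autoImplicit false

namespace Pool.Agent.Y236.SL

open Finset

open Classical in
/-- The number of cycles of a permutation (fixed points included). -/
noncomputable def cyc {n : ℕ} (σ : Equiv.Perm (Fin n)) : ℕ :=
  Fintype.card (Quotient (Equiv.Perm.SameCycle.setoid σ))

theorem apply_zpow {α β : Type*} (σ : Equiv.Perm α) (f : α → β) (h : f ∘ σ = f) (i : ℤ) (a : α) :
    f ((σ ^ i) a) = f a := by
  have h1 : ∀ a, f (σ a) = f a := fun a => congrFun h a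
  induction i using Int.induction_on generalizing a with
  | zero => simp
  | succ i ih => rw [zpow_add, zpow_one, Equiv.Perm.mul_apply, ih, h1]
  | pred i ih =>
    rw [zpow_sub, zpow_one, Equiv.Perm.mul_apply, ih]
    rw [← h1 ((σ⁻¹) a)]
    simp

open Classical in
/-- Functions invariant under `σ` are functions on the set of cycles. -/
noncomputable def fixEquiv {n : ℕ} (β : Type*) (σ : Equiv.Perm (Fin n)) :
    {f : Fin n → β // f ∘ σ = f} ≃ (Quotient (Equiv.Perm.SameCycle.setoid σ) → β) where
  toFun f := fun q => Quotient.lift f.1 (by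
    rintro a b ⟨i, rfl⟩
    exact (apply_zpow σ f.1 f.2 i a).symm) q
  invFun g := ⟨fun a => g (Quotient.mk _ a), by
    funext a
    simp only [Function.comp]
    congr 1
    apply Quotient.sound
    exact ⟨-1, by simp⟩⟩
  left_inv f := by
    ext a
    rfl
  right_inv g := by
    funext q
    induction q using Quotient.inductionOn
    rfl

theorem card_fix {n : ℕ} (x : ℕ) (σ : Equiv.Perm (Fin n)) :
    Fintype.card {f : Fin n → Fin x // f ∘ σ = f} = x ^ cyc σ := by
  classical
  rw [Fintype.card_congr (fixEquiv (Fin x) σ), Fintype.card_fun, Fintype.card_fin, cyc]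

/-- The sum over all functions of the orders of the stabilisers. -/
def FF (n x : ℕ) : ℕ :=
  ∑ f : Fin n → Fin x, ∏ a : Fin x, (Fintype.card {i // f i = a}).factorial

theorem sum_card_fix (n x : ℕ) :
    ∑ σ : Equiv.Perm (Fin n), x ^ cyc σ = FF n x := by
  classical
  have h1 : ∑ σ : Equiv.Perm (Fin n), x ^ cyc σ =
      ∑ σ : Equiv.Perm (Fin n), ∑ f : Fin n → Fin x, if f ∘ σ = f then 1 else 0 := by
    apply Finset.sum_congr rfl
    intro σ _
    rw [← card_fix, Fintype.card_subtype, Finset.card_filter]
  rw [h1, Finset.sum_comm, FF]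
  apply Finset.sum_congr rfl
  intro f _
  rw [← DomMulAct.stabilizer_card f, Fintype.card_subtype, Finset.card_filter]

theorem FF_succ (n x : ℕ) : FF (n + 1) x = (x + n) * FF n x := by
  classical
  unfold FF
  have h1 : ∑ f : Fin (n + 1) → Fin x, ∏ a : Fin x, (Fintype.card {i // f i = a}).factorial =
      ∑ p : Fin x × (Fin n → Fin x), ∏ a : Fin x,
        (Fintype.card {i // (Fin.cons p.1 p.2 : Fin (n + 1) → Fin x) i = a}).factorial := by
    refine (Fintype.sum_equiv (Fin.consEquiv (fun _ : Fin (n + 1) => Fin x)) _ _ ?_).symm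
    intro p
    rfl
  rw [h1, Fintype.sum_prod_type_right, Finset.mul_sum]
  apply Finset.sum_congr rfl
  intro f _
  have h2 : ∀ b : Fin x, ∏ a : Fin x,
      (Fintype.card {i // (Fin.cons b f : Fin (n + 1) → Fin x) i = a}).factorial =
      (Fintype.card {i // f i = b} + 1) * ∏ a : Fin x, (Fintype.card {i // f i = a}).factorial := by
    intro b
    have h3 : ∀ a : Fin x, Fintype.card {i // (Fin.cons b f : Fin (n + 1) → Fin x) i = a} =
        Fintype.card {i // f i = a} + if b = a then 1 else 0 := by
      intro a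
      rw [Fintype.card_subtype, Fintype.card_subtype, Finset.card_filter, Finset.card_filter,
        Fin.sum_univ_succ, add_comm]
      simp
    rw [← Finset.mul_prod_erase Finset.univ _ (Finset.mem_univ b),
      ← Finset.mul_prod_erase Finset.univ (fun a => (Fintype.card {i // f i = a}).factorial)
        (Finset.mem_univ b)]
    rw [h3 b, if_pos rfl, Nat.factorial_succ, mul_assoc]
    congr 2
    apply Finset.prod_congr rfl
    intro a ha
    rw [h3 a, if_neg (fun h => Finset.ne_of_mem_erase ha h.symm), add_zero]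
  rw [Finset.sum_congr rfl (fun b _ => h2 b), ← Finset.sum_mul]
  congr 1
  rw [Finset.sum_add_distrib]
  have h4 : ∑ b : Fin x, Fintype.card {i // f i = b} = n := by
    have := Fintype.card_congr (Equiv.sigmaFiberEquiv f)
    rw [Fintype.card_sigma, Fintype.card_fin] at this
    exact this
  rw [h4]
  simp
  ring

theorem FF_eq (n x : ℕ) : FF n x = x.ascFactorial n := by
  induction n with
  | zero => simp [FF]
  | succ n ih => rw [FF_succ, ih, Nat.ascFactorial_succ]

theorem sum_cyc_pow (n x : ℕ) :
    ∑ σ : Equiv.Perm (Fin n), x ^ cyc σ = (ascPochhammer ℕ n).eval x := by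
  rw [sum_card_fix, FF_eq, ascPochhammer_nat_eq_ascFactorial]

theorem sum_cyc_poly (n : ℕ) :
    ∑ σ : Equiv.Perm (Fin n), (Polynomial.X : Polynomial ℕ) ^ cyc σ = ascPochhammer ℕ n := by
  have hinj : Function.Injective (Polynomial.map (Nat.castRingHom ℤ)) :=
    Polynomial.map_injective _ Nat.cast_injective
  apply hinj
  apply Polynomial.eq_of_infinite_eval_eq
  refine Set.Infinite.mono (s := Set.range (fun x : ℕ => (x : ℤ))) ?_
    (Set.infinite_range_of_injective Nat.cast_injective)
  rintro _ ⟨x, rfl⟩
  simp only [Set.mem_ofPred_eq]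
  have e1 : ∀ p : Polynomial ℕ, Polynomial.eval (x : ℤ) (Polynomial.map (Nat.castRingHom ℤ) p) =
      ((Polynomial.eval x p : ℕ) : ℤ) := by
    intro p
    simp
  rw [e1, e1, ← sum_cyc_pow]
  simp [Polynomial.eval_finsetSum]

theorem sum_cyc (n : ℕ) (a : ℕ → ℕ) :
    ∑ σ : Equiv.Perm (Fin n), a (cyc σ) =
      ∑ m ∈ Finset.range (n + 1), (ascPochhammer ℕ n).coeff m * a m := by
  have hle : ∀ σ : Equiv.Perm (Fin n), cyc σ ∈ Finset.range (n + 1) := by
    intro σ
    classical
    rw [Finset.mem_range, Nat.lt_succ_iff, cyc]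
    calc _ ≤ Fintype.card (Fin n) := Fintype.card_quotient_le _
      _ = n := Fintype.card_fin n
  rw [← Finset.sum_fiberwise_of_maps_to (fun σ _ => hle σ)]
  apply Finset.sum_congr rfl
  intro m _
  rw [← sum_cyc_poly, Polynomial.finsetSum_coeff, Finset.sum_congr rfl
    (g := fun _ => a m) (fun σ hσ => by rw [(Finset.mem_filter.1 hσ).2]), Finset.sum_const,
    smul_eq_mul]
  congr 1
  rw [Finset.card_filter]
  apply Finset.sum_congr rfl
  intro σ _
  rw [Polynomial.coeff_X_pow]
  by_cases h : cyc σ = m
  · simp [h]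
  · rw [if_neg h, if_neg (fun h' => h h'.symm)]

end Pool.Agent.Y236.SL
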