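import Pool.Agent.Y236.Psum
import Pool.Agent.Y236.Cyc

/-!
# Symmetrised complements of strongly stable sets and the cycle count
-/

set_option autoImplicit false

namespace Pool.Agent.Y236.SL

open Finset

variable {n : ℕ}

/-- The symmetrised complement of `S`, in cumulative sum coordinates. -/
def Otil (S : Set (Fin n →₀ ℕ)) : Set (Fin n → ℕ) :=
  {f | ∃ τ : Equiv.Perm (Fin n), ∃ v : Fin n →₀ ℕ, v ∉ S ∧ f ∘ τ = psum v}

theorem Otil_comp {S : Set (Fin n →₀ ℕ)} {f : Fin n → ℕ} (hf : f ∈ Otil S)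
    (σ : Equiv.Perm (Fin n)) : f ∘ σ ∈ Otil S := by
  obtain ⟨τ, v, hv, h⟩ := hf
  refine ⟨σ⁻¹ * τ, v, hv, ?_⟩
  rw [← h]
  funext k
  simp

theorem Otil_of_comp {S : Set (Fin n →₀ ℕ)} {f : Fin n → ℕ} (σ : Equiv.Perm (Fin n))
    (hf : f ∘ σ ∈ Otil S) : f ∈ Otil S := by
  have := Otil_comp hf σ⁻¹
  have h : (f ∘ σ) ∘ (σ⁻¹ : Equiv.Perm (Fin n)) = f := by
    funext k
    simp
  rwa [h] at this

theorem Otil_finite {S : Set (Fin n →₀ ℕ)} (hS : Sᶜ.Finite) : (Otil S).Finite := by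
  have h1 : ((fun p : Equiv.Perm (Fin n) × (Fin n →₀ ℕ) => psum p.2 ∘ p.1) ''
      ((Set.univ : Set (Equiv.Perm (Fin n))) ×ˢ Sᶜ)).Finite :=
    (Set.Finite.prod Set.finite_univ hS).image _
  refine h1.subset ?_
  rintro f ⟨τ, v, hv, h⟩
  refine ⟨(τ⁻¹, v), ⟨Set.mem_univ _, hv⟩, ?_⟩
  simp only
  rw [← h]
  funext k
  simp

theorem sort_le (y g : Fin n → ℕ) (hy : Monotone y) (h : g ≤ y) :
    g ∘ Tuple.sort g ≤ y := by
  intro k
  by_contra hcon
  rw [not_le] at hcon
  simp only [Function.comp] at hcon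
  have hmono := Tuple.monotone_sort g
  have hsub : (Finset.Ici k).image (Tuple.sort g) ⊆ Finset.Ioi k := by
    intro a ha
    rw [Finset.mem_image] at ha
    obtain ⟨l, hl, rfl⟩ := ha
    rw [Finset.mem_Ici] at hl
    rw [Finset.mem_Ioi]
    by_contra hc
    rw [not_lt] at hc
    have h1 := hy hc
    have h2 := hmono hl
    simp only [Function.comp] at h2
    have h3 := h (Tuple.sort g l)
    exact absurd (lt_of_lt_of_le hcon (h2.trans (h3.trans h1))) (lt_irrefl _)
  have hcard := Finset.card_le_card hsub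
  rw [Finset.card_image_of_injective _ (Tuple.sort g).injective, Fin.card_Ici, Fin.card_Ioi]
    at hcard
  have := k.2
  omega

theorem Otil_lower {S : Set (Fin n →₀ ℕ)} (hS : Stable S) {f g : Fin n → ℕ}
    (hf : f ∈ Otil S) (hg : g ≤ f) : g ∈ Otil S := by
  obtain ⟨τ, v, hv, h⟩ := hf
  have h1 : g ∘ τ ≤ psum v := by
    rw [← h]
    intro k
    exact hg (τ k)
  have h2 := sort_le (psum v) (g ∘ τ) (psum_mono v) h1
  have h3 := Tuple.monotone_sort (g ∘ τ)
  refine ⟨τ * Tuple.sort (g ∘ τ), dif ((g ∘ τ) ∘ Tuple.sort (g ∘ τ)), ?_, ?_⟩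
  · intro hmem
    apply hv
    refine hS.dom _ _ hmem ?_
    rw [psum_dif _ h3]
    exact h2
  · rw [psum_dif _ h3]
    rfl

/-- Extend a function on `Fin m` to `Fin n` by its maximum. -/
def ext {m : ℕ} (n : ℕ) (f : Fin m → ℕ) : Fin n → ℕ :=
  fun k => if h : (k : ℕ) < m then f ⟨k, h⟩ else Finset.univ.sup f

/-- The functions on `Fin m` whose extension is in the symmetrised complement. -/
def Om (S : Set (Fin n →₀ ℕ)) (m : ℕ) : Set (Fin m → ℕ) := {f | ext n f ∈ Otil S}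

theorem Om_finite {S : Set (Fin n →₀ ℕ)} (hS : Sᶜ.Finite) {m : ℕ} (hm : m ≤ n) :
    (Om S m).Finite := by
  refine Set.Finite.of_injOn (f := ext n) (t := Otil S) (fun f hf => hf) ?_ (Otil_finite hS)
  intro f _ g _ hfg
  funext k
  have := congrFun hfg ⟨k, lt_of_lt_of_le k.2 hm⟩
  simpa [ext] using this

theorem ext_mono {m : ℕ} {f g : Fin m → ℕ} (h : f ≤ g) : ext n f ≤ ext n g := by
  intro k
  unfold ext
  split_ifs with hk
  · exact h _
  · exact Finset.sup_mono_fun (fun b _ => h b)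

theorem Om_lower {S : Set (Fin n →₀ ℕ)} (hS : Stable S) {m : ℕ} {f g : Fin m → ℕ}
    (hf : f ∈ Om S m) (hg : g ≤ f) : g ∈ Om S m :=
  Otil_lower hS hf (ext_mono hg)

instance instAct (S : Set (Fin n →₀ ℕ)) : MulAction (Equiv.Perm (Fin n)) (Otil S) where
  smul σ f := ⟨f.1 ∘ (σ⁻¹ : Equiv.Perm (Fin n)), Otil_comp f.2 _⟩
  one_smul f := by
    apply Subtype.ext
    change f.1 ∘ ((1 : Equiv.Perm (Fin n))⁻¹ : Equiv.Perm (Fin n)) = f.1
    simp
  mul_smul σ τ f := by
    apply Subtype.ext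
    change f.1 ∘ ((σ * τ)⁻¹ : Equiv.Perm (Fin n)) =
      (f.1 ∘ (τ⁻¹ : Equiv.Perm (Fin n))) ∘ (σ⁻¹ : Equiv.Perm (Fin n))
    rw [mul_inv_rev]
    rfl

theorem smul_val {S : Set (Fin n →₀ ℕ)} (σ : Equiv.Perm (Fin n)) (f : Otil S) :
    (σ • f).1 = f.1 ∘ (σ⁻¹ : Equiv.Perm (Fin n)) := rfl

theorem orbits_le (S : Set (Fin n →₀ ℕ)) (hS : Sᶜ.Finite) :
    Nat.card (Quotient (MulAction.orbitRel (Equiv.Perm (Fin n)) (Otil S))) ≤ Sᶜ.ncard := by
  have : Finite (Sᶜ : Set (Fin n →₀ ℕ)) := hS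
  have hex : ∀ v : (Sᶜ : Set (Fin n →₀ ℕ)), psum v.1 ∈ Otil S := fun v => ⟨1, v.1, v.2, by simp⟩
  refine Nat.card_le_card_of_surjective
    (fun v : (Sᶜ : Set (Fin n →₀ ℕ)) =>
      (Quotient.mk _ ⟨psum v.1, hex v⟩ : Quotient (MulAction.orbitRel _ (Otil S)))) ?_
  intro q
  induction q using Quotient.inductionOn with
  | h f =>
    obtain ⟨f, hf⟩ := f
    obtain ⟨τ, v, hv, h⟩ := id hf
    refine ⟨⟨v, hv⟩, ?_⟩
    apply Quotient.sound
    refine ⟨τ⁻¹, ?_⟩
    apply Subtype.ext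
    change f ∘ ((τ⁻¹)⁻¹ : Equiv.Perm (Fin n)) = psum v
    rw [inv_inv, h]

theorem Om_le_fix (S : Set (Fin n →₀ ℕ)) (hSt : Stable S) (hS : Sᶜ.Finite)
    (σ : Equiv.Perm (Fin n)) :
    (Om S (cyc σ)).ncard ≤ Nat.card (MulAction.fixedBy (Otil S) σ) := by
  classical
  have hfO : Finite (Otil S) := Otil_finite hS
  -- the index of the cycle
  let Q := Quotient (Equiv.Perm.SameCycle.setoid σ)
  have hcQ : Fintype.card Q = cyc σ := by
    unfold cyc
    congr 1
    
  let e : Q ≃ Fin (cyc σ) := Fintype.equivFinOfCardEq hcQ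
  let q : Fin n → Fin (cyc σ) := fun k => e (Quotient.mk _ k)
  have hq : ∀ k, q (σ k) = q k := by
    intro k
    simp only [q]
    congr 1
    apply Quotient.sound
    exact ⟨-1, by simp⟩
  have hqs : Function.Surjective q := by
    intro j
    obtain ⟨k, hk⟩ := Quotient.exists_rep (e.symm j)
    exact ⟨k, by simp [q, hk]⟩
  have hle : cyc σ ≤ n := by
    have := Fintype.card_le_of_surjective q hqs
    simpa using this
  obtain ⟨r, hr⟩ := hqs.hasRightInverse
  have hrinj : Function.Injective r := hr.injective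
  -- a permutation extending `r`
  let e1 : {x : Fin n // (x : ℕ) < cyc σ} ≃ {x : Fin n // x ∈ Set.range r} :=
    { toFun := fun x => ⟨r ⟨x.1, x.2⟩, ⟨_, rfl⟩⟩
      invFun := fun x => ⟨⟨q x.1, lt_of_lt_of_le (q x.1).2 hle⟩, (q x.1).2⟩
      left_inv := by
        intro x
        apply Subtype.ext
        apply Fin.ext
        simp [hr _]
      right_inv := by
        rintro ⟨x, ⟨j, rfl⟩⟩
        apply Subtype.ext
        simp [hr _] }
  let π : Equiv.Perm (Fin n) := e1.extendSubtype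
  have hπ : ∀ k : Fin n, ∀ h : (k : ℕ) < cyc σ, π k = r ⟨k, h⟩ := by
    intro k h
    have := Equiv.extendSubtype_apply_of_mem e1 k h
    simp only [π]
    rw [this]
    rfl
  rw [← Nat.card_coe_set_eq]
  have hmem : ∀ f : Om S (cyc σ), f.1 ∘ q ∈ Otil S := by
    intro f
    apply Otil_of_comp π
    refine Otil_lower hSt f.2 ?_
    intro k
    unfold ext
    split_ifs with hk
    · simp only [Function.comp]
      rw [hπ k hk, hr]
    · exact Finset.le_sup (f := f.1) (Finset.mem_univ (q (π k)))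
  refine Nat.card_le_card_of_injective
    (fun f : Om S (cyc σ) => (⟨⟨f.1 ∘ q, hmem f⟩, ?_⟩ : MulAction.fixedBy (Otil S) σ)) ?_
  · rw [MulAction.mem_fixedBy]
    apply Subtype.ext
    rw [smul_val]
    funext k
    simp only [Function.comp]
    have := hq ((σ⁻¹ : Equiv.Perm (Fin n)) k)
    rw [← this]
    simp
  · intro f g hfg
    apply Subtype.ext
    have h1 : f.1 ∘ q = g.1 ∘ q := by
      have := congrArg (fun x : MulAction.fixedBy (Otil S) σ => x.1.1) hfg
      exact this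
    exact hqs.injective_comp_right h1

/-- The cycle count inequality for strongly stable sets with finite complement. -/
theorem burnside (S : Set (Fin n →₀ ℕ)) (hSt : Stable S) (hS : Sᶜ.Finite) :
    ∑ m ∈ Finset.range (n + 1), (ascPochhammer ℕ n).coeff m * (Om S m).ncard ≤
      n.factorial * Sᶜ.ncard := by
  classical
  have hfO : Finite (Otil S) := Otil_finite hS
  have := Fintype.ofFinite (Otil S)
  have hb := MulAction.sum_card_fixedBy_eq_card_orbits_mul_card_group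
    (Equiv.Perm (Fin n)) (Otil S)
  rw [← sum_cyc n (fun m => (Om S m).ncard)]
  calc ∑ σ : Equiv.Perm (Fin n), (Om S (cyc σ)).ncard
      ≤ ∑ σ : Equiv.Perm (Fin n), Fintype.card (MulAction.fixedBy (Otil S) σ) := by
        apply Finset.sum_le_sum
        intro σ _
        have := Om_le_fix S hSt hS σ
        rwa [Nat.card_eq_fintype_card] at this
    _ = _ := hb
    _ ≤ _ := by
        rw [Fintype.card_perm, Fintype.card_fin, mul_comm]
        apply Nat.mul_le_mul_left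
        have := orbits_le S hS
        rwa [Nat.card_eq_fintype_card] at this

end Pool.Agent.Y236.SL
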