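import Pool.Agent.Y236.Inn

/-!
# Two semicontinuity statements for sections by linear forms
-/

set_option autoImplicit false

namespace Pool.Agent.Y236.SL

open Finset MvPolynomial

variable {n : ℕ} {k : Type} [Field k]

/-- Colength. -/
noncomputable def dq (G : Ideal (MvPolynomial (Fin n) k)) : ℕ :=
  Module.finrank k (MvPolynomial (Fin n) k ⧸ G)

theorem dq_eq (G : Ideal (MvPolynomial (Fin n) k)) : dq G = (inn G)ᶜ.ncard := finrank_quot G

theorem dq_anti {J K : Ideal (MvPolynomial (Fin n) k)} (hJ : Cof J) (h : J ≤ K) :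
    dq K ≤ dq J := by
  rw [dq_eq, dq_eq]
  exact Set.ncard_le_ncard (Set.compl_subset_compl.2 (inn_mono h)) hJ.finite

/-- Linear forms. -/
noncomputable def lin (v : Fin n → k) : MvPolynomial (Fin n) k := ∑ t, C (v t) * X t

theorem lin_add (v w : Fin n → k) : lin (v + w) = lin v + lin w := by
  simp [lin, add_mul, Finset.sum_add_distrib]

theorem lin_smul (a : k) (v : Fin n → k) : lin (a • v) = C a * lin v := by
  simp [lin, Finset.mul_sum, mul_assoc]

theorem lin_single [DecidableEq (Fin n)] (j : Fin n) :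
    lin (Pi.single j 1 : Fin n → k) = X j := by
  unfold lin
  rw [Finset.sum_eq_single j]
  · simp
  · intro b _ hb
    simp [hb]
  · simp

/-- The ideal generated by the first `i` linear forms. -/
noncomputable def Li {d : ℕ} (i : ℕ) (c : Fin d → Fin n → k) :
    Ideal (MvPolynomial (Fin n) k) :=
  Ideal.span {f | ∃ j : Fin d, j.val < i ∧ f = lin (c j)}

/-- Description of the truncation of `Q + L`. -/
theorem map_trunc_sup (D : ℕ) {d : ℕ} (Q : Ideal (MvPolynomial (Fin n) k)) (i : ℕ)
    (c : Fin d → Fin n → k) (V : Submodule k (Bd n D → k))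
    (h1 : ∀ q ∈ Q, trunc k n D q ∈ V)
    (h2 : ∀ (f : MvPolynomial (Fin n) k) (j : Fin d), j.val < i →
      trunc k n D (f * lin (c j)) ∈ V) :
    ((Q ⊔ Li i c).restrictScalars k).map (trunc k n D) ≤ V := by
  rw [Submodule.map_le_iff_le_comap]
  intro g hg
  rw [Submodule.restrictScalars_mem] at hg
  obtain ⟨q, hq, l, hl, rfl⟩ := Submodule.mem_sup.1 hg
  rw [Submodule.mem_comap, map_add]
  refine V.add_mem (h1 q hq) ?_
  have key : ∀ a : MvPolynomial (Fin n) k, trunc k n D (a * l) ∈ V := by
    clear hg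
    unfold Li at hl
    induction hl using Submodule.span_induction with
    | mem x hx =>
      obtain ⟨j, hj, rfl⟩ := hx
      intro a
      exact h2 a j hj
    | zero => intro a; rw [mul_zero, map_zero]; exact V.zero_mem
    | add x y _ _ hx hy => intro a; rw [mul_add, map_add]; exact V.add_mem (hx a) (hy a)
    | smul b x _ hx =>
      intro a
      rw [smul_eq_mul, ← mul_assoc]
      exact hx _
  have := key 1
  rwa [one_mul] at this

/-- Upper semicontinuity of the colength of `Q + L(c)` in `c`. -/
theorem lemC {d : ℕ} {Q : Ideal (MvPolynomial (Fin n) k)} (hQ : Cof Q) (i : ℕ)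
    (c0 : Fin d → Fin n → k) :
    ∃ P : MvPolynomial (Fin d × Fin n) k, eval (fun p => c0 p.1 p.2) P ≠ 0 ∧
      ∀ c : Fin d → Fin n → k, eval (fun p => c p.1 p.2) P ≠ 0 →
        dq (Q ⊔ Li i c) ≤ dq (Q ⊔ Li i c0) := by
  classical
  obtain ⟨D, hD⟩ := hQ
  let F : (Q ⊕ (MvPolynomial (Fin n) k × {j : Fin d // j.val < i})) → Bd n D →
      MvPolynomial (Fin d × Fin n) k := fun x u =>
    match x with
    | Sum.inl q => C (coeff u.1 q.1)
    | Sum.inr p => ∑ t : Fin n, C (coeff u.1 (p.1 * X t)) * X (p.2.1, t)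
  have hF2 : ∀ (c : Fin d → Fin n → k) (f : MvPolynomial (Fin n) k) (j : {j : Fin d // j.val < i})
      (u : Bd n D), eval (fun p : Fin d × Fin n => c p.1 p.2) (F (Sum.inr (f, j)) u) =
        trunc k n D (f * lin (c j.1)) u := by
    intro c f j u
    simp only [F, trunc_apply, lin, Finset.mul_sum, coeff_sum, map_sum, map_mul, eval_C, eval_X]
    apply Finset.sum_congr rfl
    intro t _
    have h0 : f * (C (c j.1 t) * X t) = C (c j.1 t) * (f * X t) := by ring
    rw [h0, coeff_C_mul, mul_comm]
  have hF1 : ∀ (c : Fin d → Fin n → k) (q : Q)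
      (u : Bd n D), eval (fun p : Fin d × Fin n => c p.1 p.2) (F (Sum.inl q) u) =
        trunc k n D q.1 u := by
    intro c q u
    simp [F, trunc_apply]
  have hspan : ∀ c : Fin d → Fin n → k,
      Submodule.span k (Set.range (fun x u => eval (fun p : Fin d × Fin n => c p.1 p.2) (F x u))) =
        ((Q ⊔ Li i c).restrictScalars k).map (trunc k n D) := by
    intro c
    apply le_antisymm
    · rw [Submodule.span_le]
      rintro _ ⟨x, rfl⟩
      rcases x with q | ⟨f, j⟩
      · have h3 : (fun u => eval (fun p : Fin d × Fin n => c p.1 p.2) (F (Sum.inl q) u)) =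
          trunc k n D q.1 := funext (hF1 c q)
        change (fun u => eval (fun p : Fin d × Fin n => c p.1 p.2) (F (Sum.inl q) u)) ∈ _
        rw [h3]
        exact ⟨q.1, (le_sup_left : Q ≤ Q ⊔ Li i c) q.2, rfl⟩
      · have h3 : (fun u => eval (fun p : Fin d × Fin n => c p.1 p.2) (F (Sum.inr (f, j)) u)) =
          trunc k n D (f * lin (c j.1)) := funext (hF2 c f j)
        change (fun u => eval (fun p : Fin d × Fin n => c p.1 p.2) (F (Sum.inr (f, j)) u)) ∈ _
        rw [h3]
        refine ⟨f * lin (c j.1), (le_sup_right : Li i c ≤ Q ⊔ Li i c) ?_, rfl⟩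
        exact Ideal.mul_mem_left _ _ (Ideal.subset_span ⟨j.1, j.2, rfl⟩)
    · apply map_trunc_sup
      · intro q hq
        rw [← (funext (hF1 c ⟨q, hq⟩) :
          (fun u => eval (fun p : Fin d × Fin n => c p.1 p.2) (F (Sum.inl ⟨q, hq⟩) u)) = _)]
        exact Submodule.subset_span ⟨Sum.inl ⟨q, hq⟩, rfl⟩
      · intro f j hj
        rw [← (funext (hF2 c f ⟨j, hj⟩) :
          (fun u => eval (fun p : Fin d × Fin n => c p.1 p.2) (F (Sum.inr (f, ⟨j, hj⟩)) u)) = _)]
        exact Submodule.subset_span ⟨Sum.inr (f, ⟨j, hj⟩), rfl⟩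
  obtain ⟨P, hP0, hP⟩ := sc_span F (fun p : Fin d × Fin n => c0 p.1 p.2)
  refine ⟨P, hP0, fun c hc => ?_⟩
  have h4 := hP (fun p : Fin d × Fin n => c p.1 p.2) hc
  rw [hspan, hspan] at h4
  have h5 := finrank_trunc (G := Q ⊔ Li i c) (hD.trans le_sup_left)
  have h6 := finrank_trunc (G := Q ⊔ Li i c0) (hD.trans le_sup_left)
  unfold dq
  omega

/-- Weights realising the lexicographic order on exponents of degree less than `D`. -/
def wt (D : ℕ) (u : Fin n →₀ ℕ) : ℕ := ∑ l : Fin n, D ^ (n - 1 - (l : ℕ)) * u l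

theorem wt_lt {D : ℕ} {w u : Fin n →₀ ℕ} (hw : w.degree < D) (h : toLex w < toLex u) :
    wt D w < wt D u := by
  classical
  have hD : 0 < D := by omega
  obtain ⟨j, hj1, hj2⟩ := h
  have hj1' : ∀ l : Fin n, l < j → w l = u l := hj1
  have hj2' : w j < u j := hj2
  set ω : Fin n → ℕ := fun l => D ^ (n - 1 - (l : ℕ)) with hω
  have hωpos : 0 < ω j := Nat.pos_of_ne_zero (by simp only [hω]; positivity)
  -- the tail of w
  have htail : ∑ l ∈ Finset.Ioi j, ω l * w l < ω j := by
    have h1 : D * ∑ l ∈ Finset.Ioi j, ω l * w l ≤ ω j * w.degree := by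
      rw [Finset.mul_sum]
      calc ∑ l ∈ Finset.Ioi j, D * (ω l * w l) ≤ ∑ l ∈ Finset.Ioi j, ω j * w l := by
            apply Finset.sum_le_sum
            intro l hl
            rw [Finset.mem_Ioi] at hl
            rw [← mul_assoc]
            apply Nat.mul_le_mul_right
            simp only [hω]
            rw [← pow_succ']
            apply Nat.pow_le_pow_right hD
            have h2 : (j : ℕ) < l := hl
            have := l.2
            omega
        _ = ω j * ∑ l ∈ Finset.Ioi j, w l := by rw [Finset.mul_sum]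
        _ ≤ ω j * w.degree := by
            apply Nat.mul_le_mul_left
            rw [Finsupp.degree_eq_sum]
            exact Finset.sum_le_sum_of_subset (Finset.subset_univ _)
    by_contra hc
    rw [not_lt] at hc
    have h2 : D * ω j ≤ ω j * w.degree := (Nat.mul_le_mul_left D hc).trans h1
    rw [mul_comm] at h2
    have h3 := Nat.le_of_mul_le_mul_left h2 hωpos
    omega
  have hsplit : ∀ v : Fin n →₀ ℕ, wt D v =
      (∑ l ∈ Finset.Iio j, ω l * v l) + ω j * v j + ∑ l ∈ Finset.Ioi j, ω l * v l := by
    intro v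
    have h1 : (Finset.univ : Finset (Fin n)) = insert j (Finset.Iio j) ∪ Finset.Ioi j := by
      ext l
      simp only [Finset.mem_univ, Finset.mem_union, Finset.mem_insert, Finset.mem_Iio,
        Finset.mem_Ioi, true_iff]
      rcases lt_trichotomy l j with h | h | h
      · exact Or.inl (Or.inr h)
      · exact Or.inl (Or.inl h)
      · exact Or.inr h
    have h2 : Disjoint (insert j (Finset.Iio j)) (Finset.Ioi j) := by
      rw [Finset.disjoint_left]
      intro l hl hl'
      rw [Finset.mem_Ioi] at hl'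
      rw [Finset.mem_insert, Finset.mem_Iio] at hl
      rcases hl with h | h
      · exact absurd (h ▸ hl') (lt_irrefl _)
      · exact absurd (hl'.trans h) (lt_irrefl _)
    unfold wt
    rw [h1, Finset.sum_union h2, Finset.sum_insert (by simp)]
    simp only [hω]
    ring
  rw [hsplit w, hsplit u]
  have h1 : ∑ l ∈ Finset.Iio j, ω l * w l = ∑ l ∈ Finset.Iio j, ω l * u l := by
    apply Finset.sum_congr rfl
    intro l hl
    rw [hj1' l (Finset.mem_Iio.1 hl)]
  have h2 : ω j * w j + ω j ≤ ω j * u j := by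
    rw [← Nat.mul_succ]
    exact Nat.mul_le_mul_left _ hj2'
  rw [h1]
  have h3 : 0 ≤ ∑ l ∈ Finset.Ioi j, ω l * u l := Nat.zero_le _
  omega

/-- The torus action. -/
noncomputable def tor (D : ℕ) (t : k) : MvPolynomial (Fin n) k →ₐ[k] MvPolynomial (Fin n) k :=
  aeval (fun l : Fin n => C (t ^ (D ^ (n - 1 - (l : ℕ)))) * X l)

theorem coeff_tor (D : ℕ) (t : k) (f : MvPolynomial (Fin n) k) (w : Fin n →₀ ℕ) :
    coeff w (tor D t f) = t ^ wt D w * coeff w f := by
  classical
  induction f using MvPolynomial.induction_on' with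
  | monomial u a =>
    have h1 : tor D t (monomial u a) = monomial u (a * t ^ wt D u) := by
      unfold tor
      rw [aeval_monomial, MvPolynomial.algebraMap_eq]
      rw [Finsupp.prod_fintype _ _ (fun i => by simp)]
      simp only [mul_pow, Finset.prod_mul_distrib, ← C_pow, ← pow_mul]
      rw [← map_prod, Finset.prod_pow_eq_pow_sum]
      rw [MvPolynomial.monomial_eq, Finsupp.prod_fintype _ _ (fun i => by simp), C_mul, mul_assoc]
      rfl
    rw [h1, coeff_monomial, coeff_monomial]
    by_cases h : u = w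
    · simp [h, mul_comm]
    · simp [h]
  | add p q hp hq => rw [map_add, coeff_add, hp, hq, coeff_add, mul_add]

theorem tor_lin (D : ℕ) (t : k) (v : Fin n → k) :
    tor D t (lin v) = lin (fun l => v l * t ^ (D ^ (n - 1 - (l : ℕ)))) := by
  unfold lin tor
  rw [map_sum]
  apply Finset.sum_congr rfl
  intro l _
  rw [map_mul, aeval_X, ← MvPolynomial.algebraMap_eq, AlgHom.commutes]
  rw [MvPolynomial.algebraMap_eq, C_mul, mul_assoc]

/-- Degeneration to the initial ideal. -/
theorem lemA [Infinite k] {d : ℕ} {Q : Ideal (MvPolynomial (Fin n) k)} (hQ : Cof Q) (i : ℕ)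
    (c0 : Fin d → Fin n → k) :
    ∃ c : Fin d → Fin n → k, dq (Q ⊔ Li i c) ≤ dq (mon k (inn Q) ⊔ Li i c0) := by
  classical
  obtain ⟨D, hD⟩ := hQ
  -- leading elements
  have hq : ∀ u : {u : Bd n D // u.1 ∈ inn Q}, ∃ q ∈ Q, q ≠ 0 ∧ (lx n).degree q = u.1.1 :=
    fun u => u.2
  choose q hqQ hq0 hqd using hq
  let F : ({u : Bd n D // u.1 ∈ inn Q} ⊕ (MvPolynomial (Fin n) k × {j : Fin d // j.val < i})) →
      Bd n D → MvPolynomial Unit k := fun x w =>
    match x with
    | Sum.inl u => C (coeff w.1 (q u)) * X () ^ (wt D u.1.1 - wt D w.1)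
    | Sum.inr p => C (coeff w.1 (p.1 * lin (c0 p.2.1)))
  obtain ⟨P, hP0, hP⟩ := sc_span F (fun _ : Unit => (0 : k))
  -- a nonzero parameter
  have hex : ∃ t : Unit → k, eval t (P * X ()) ≠ 0 := by
    by_contra hcon
    push Not at hcon
    have h1 : P * X () = 0 := MvPolynomial.funext (fun t => by rw [hcon t, map_zero])
    have h2 : P ≠ 0 := by
      rintro rfl
      simp at hP0
    exact mul_ne_zero h2 (X_ne_zero ()) h1
  obtain ⟨t', ht'⟩ := hex
  set t : k := t' () with ht
  have ht0 : t ≠ 0 := by
    intro h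
    apply ht'
    rw [map_mul, eval_X, ← ht, h, mul_zero]
  have hPt : eval t' P ≠ 0 := by
    intro h
    apply ht'
    rw [map_mul, h, zero_mul]
  have hlex : ∀ (u : {u : Bd n D // u.1 ∈ inn Q}) (w : Bd n D), coeff w.1 (q u) ≠ 0 →
      w.1 ≠ u.1.1 → wt D w.1 < wt D u.1.1 := by
    intro u w hw hne
    apply wt_lt w.2
    have h1 := MonomialOrder.le_degree (m := lx n) (MvPolynomial.mem_support_iff.2 hw)
    rw [hqd u] at h1
    exact lt_of_le_of_ne h1 (fun h => hne ((lx n).toSyn.injective h))
  let c : Fin d → Fin n → k := fun j l => c0 j l * t ^ (D ^ (n - 1 - (l : ℕ)))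
  refine ⟨c, ?_⟩
  -- the degenerate side
  have hS0 : ((mon k (inn Q) ⊔ Li i c0).restrictScalars k).map (trunc k n D) ≤
      Submodule.span k (Set.range (fun x w => eval (fun _ : Unit => (0 : k)) (F x w))) := by
    apply map_trunc_sup
    · intro f hf
      rw [mem_mon_up (inn_isUpper Q)] at hf
      rw [f.as_sum, map_sum]
      apply Submodule.sum_mem
      intro u hu
      by_cases huD : u.degree < D
      · let u' : {u : Bd n D // u.1 ∈ inn Q} := ⟨⟨u, huD⟩, hf u hu⟩
        have hcu : coeff u (q u') ≠ 0 := by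
          have := (MonomialOrder.coeff_degree_ne_zero_iff (m := lx n)).2 (hq0 u')
          rwa [hqd u'] at this
        have h1 : trunc k n D (monomial u (coeff u f)) =
            (coeff u f * (coeff u (q u'))⁻¹) •
              (fun w => eval (fun _ : Unit => (0 : k)) (F (Sum.inl u') w)) := by
          funext w
          rw [trunc_apply, coeff_monomial]
          simp only [Pi.smul_apply, F, smul_eq_mul, map_mul, eval_C, map_pow, eval_X]
          by_cases hw : u = w.1
          · rw [if_pos hw, ← hw]
            simp [u', hcu]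
          · rw [if_neg hw]
            by_cases hc : coeff w.1 (q u') = 0
            · rw [hc]; simp
            · have := hlex u' w hc (fun h => hw h.symm)
              rw [zero_pow (by omega)]
              simp
        rw [h1]
        exact Submodule.smul_mem _ _ (Submodule.subset_span ⟨Sum.inl u', rfl⟩)
      · have h1 : trunc k n D (monomial u (coeff u f)) = 0 := by
          funext w
          rw [trunc_apply, coeff_monomial, if_neg]
          · rfl
          · intro h
            exact huD (h ▸ w.2)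
        rw [h1]
        exact Submodule.zero_mem _
    · intro f j hj
      apply Submodule.subset_span
      refine ⟨Sum.inr (f, ⟨j, hj⟩), ?_⟩
      funext w
      simp [F, trunc_apply]
  -- the generic side
  let Φ : (Bd n D → k) →ₗ[k] (Bd n D → k) :=
    { toFun := fun v w => t ^ wt D w.1 * v w
      map_add' := fun v v' => by funext w; simp [mul_add]
      map_smul' := fun a v => by funext w; simp [mul_left_comm] }
  have hΦ : Function.Injective Φ := by
    intro v v' hvv
    funext w
    have h1 : t ^ wt D w.1 * v w = t ^ wt D w.1 * v' w := congrFun hvv w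
    exact mul_left_cancel₀ (pow_ne_zero _ ht0) h1
  have hS1 : (Submodule.span k (Set.range (fun x w => eval t' (F x w)))).map Φ ≤
      ((Q ⊔ Li i c).restrictScalars k).map (trunc k n D) := by
    rw [Submodule.map_span_le]
    rintro _ ⟨x, rfl⟩
    rcases x with u | ⟨f, j⟩
    · refine ⟨t ^ wt D u.1.1 • q u, (le_sup_left : Q ≤ Q ⊔ Li i c)
        (Submodule.smul_of_tower_mem _ _ (hqQ u)), ?_⟩
      funext w
      rw [trunc_apply, coeff_smul]
      change _ = t ^ wt D w.1 * eval t' (C (coeff w.1 (q u)) * X () ^ (wt D u.1.1 - wt D w.1))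
      rw [map_mul, eval_C, map_pow, eval_X, ← ht]
      by_cases hc : coeff w.1 (q u) = 0
      · rw [hc]; simp
      · have hle : wt D w.1 ≤ wt D u.1.1 := by
          by_cases hwu : w.1 = u.1.1
          · rw [hwu]
          · exact (hlex u w hc hwu).le
        rw [mul_left_comm, ← pow_add, Nat.add_sub_cancel' hle, smul_eq_mul, mul_comm]
    · refine ⟨tor D t (f * lin (c0 j.1)), ?_, ?_⟩
      · rw [map_mul, tor_lin]
        apply (le_sup_right : Li i c ≤ Q ⊔ Li i c)
        exact Ideal.mul_mem_left _ _ (Ideal.subset_span ⟨j.1, j.2, rfl⟩)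
      · funext w
        rw [trunc_apply, coeff_tor]
        change _ = t ^ wt D w.1 * eval t' (C (coeff w.1 (f * lin (c0 j.1))))
        rw [eval_C]
  have h4 := hP t' hPt
  have h5 := finrank_trunc (G := Q ⊔ Li i c) (hD.trans le_sup_left)
  have h6 := finrank_trunc (G := mon k (inn Q) ⊔ Li i c0) (D := D) (by
    refine le_trans ?_ le_sup_left
    intro f hf
    rw [MvPolynomial.mem_pow_idealOfVars_iff] at hf
    rw [mem_mon_up (inn_isUpper Q)]
    intro w hw
    exact mem_inn_of_degree hD (hf w hw))
  have h7 := Submodule.finrank_mono hS0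
  have h8 := Submodule.finrank_mono hS1
  have h9 : Module.finrank k
      ((Submodule.span k (Set.range (fun x w => eval t' (F x w)))).map Φ) =
      Module.finrank k (Submodule.span k (Set.range (fun x w => eval t' (F x w)))) :=
    (Submodule.equivMapOfInjective Φ hΦ _).finrank_eq.symm
  unfold dq
  omega

end Pool.Agent.Y236.SL
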