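import Mathlib

/-!
# Semicontinuity of the rank of polynomial families of vectors
-/

set_option autoImplicit false

namespace Pool.Agent.Y236.SL

open Finset

theorem sc_indep {k : Type*} [Field k] {τ κ ι : Type*} [Finite κ] [Finite ι]
    (F : ι → κ → MvPolynomial τ k) (c0 : τ → k)
    (h : LinearIndependent k (fun i x => MvPolynomial.eval c0 (F i x))) :
    ∃ P : MvPolynomial τ k, MvPolynomial.eval c0 P ≠ 0 ∧
      ∀ c, MvPolynomial.eval c P ≠ 0 →
        LinearIndependent k (fun i x => MvPolynomial.eval c (F i x)) := by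
  classical
  have := Fintype.ofFinite κ
  have := Fintype.ofFinite ι
  let Fm : Matrix ι κ (MvPolynomial τ k) := Matrix.of F
  let M : (τ → k) → Matrix ι κ k := fun c => Fm.map (MvPolynomial.eval c)
  have hM : ∀ c, LinearIndependent k (fun i x => MvPolynomial.eval c (F i x)) ↔
      Function.Injective (M c).vecMul := by
    intro c
    rw [Matrix.vecMul_injective_iff]
    rfl
  rw [hM] at h
  have hker : LinearMap.ker (M c0).vecMulLinear = ⊥ := by
    rw [LinearMap.ker_eq_bot]
    exact h
  obtain ⟨g, hg⟩ := LinearMap.exists_leftInverse_of_injective (M c0).vecMulLinear hker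
  let G : Matrix ι κ k := LinearMap.toMatrix' g
  have hG : G * (M c0).transpose = 1 := by
    have h1 : ∀ v, (G * (M c0).transpose).mulVec v = v := by
      intro v
      rw [← Matrix.mulVec_mulVec, Matrix.mulVec_transpose]
      have h2 : G.mulVec (Matrix.vecMul v (M c0)) = g (Matrix.vecMul v (M c0)) :=
        LinearMap.toMatrix'_mulVec g _
      rw [h2]
      exact LinearMap.congr_fun hg v
    apply Matrix.mulVec_injective
    funext v
    rw [h1, Matrix.one_mulVec]
  let G' : Matrix ι κ (MvPolynomial τ k) := G.map MvPolynomial.C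
  let Ft : Matrix κ ι (MvPolynomial τ k) := Fm.transpose
  let Nm : Matrix ι ι (MvPolynomial τ k) := G' * Ft
  let P : MvPolynomial τ k := Nm.det
  have hP : ∀ c, MvPolynomial.eval c P = (G * (M c).transpose).det := by
    intro c
    simp only [P]
    rw [RingHom.map_det, RingHom.mapMatrix_apply]
    simp only [Nm]
    rw [Matrix.map_mul]
    congr 2
    ext i j
    simp [G']
  refine ⟨P, ?_, ?_⟩
  · rw [hP, hG, Matrix.det_one]
    exact one_ne_zero
  · intro c hc
    rw [hP] at hc
    rw [hM]
    have hu : IsUnit (G * (M c).transpose) := by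
      rw [Matrix.isUnit_iff_isUnit_det]
      exact isUnit_iff_ne_zero.2 hc
    have hinj : Function.Injective (G * (M c).transpose).mulVec :=
      Matrix.mulVec_injective_of_isUnit hu
    intro v w hvw
    apply hinj
    rw [← Matrix.mulVec_mulVec, ← Matrix.mulVec_mulVec, Matrix.mulVec_transpose,
      Matrix.mulVec_transpose]
    simp only at hvw
    rw [hvw]

/-- Semicontinuity of the rank of the span of a polynomial family of vectors. -/
theorem sc_span {k : Type*} [Field k] {τ κ ι : Type*} [Finite κ]
    (F : ι → κ → MvPolynomial τ k) (c0 : τ → k) :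
    ∃ P : MvPolynomial τ k, MvPolynomial.eval c0 P ≠ 0 ∧
      ∀ c, MvPolynomial.eval c P ≠ 0 →
        Module.finrank k (Submodule.span k (Set.range (fun i x => MvPolynomial.eval c0 (F i x)))) ≤
        Module.finrank k (Submodule.span k (Set.range (fun i x => MvPolynomial.eval c (F i x)))) := by
  classical
  obtain ⟨ι', a, ha, hsp, hli⟩ := exists_linearIndependent' k
    (fun i x => MvPolynomial.eval c0 (F i x))
  have hfin : Finite ι' := hli.finite
  have := Fintype.ofFinite ι'
  obtain ⟨P, hP0, hP⟩ := sc_indep (fun i => F (a i)) c0 hli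
  refine ⟨P, hP0, fun c hc => ?_⟩
  rw [← hsp, finrank_span_eq_card hli, ← finrank_span_eq_card (hP c hc)]
  apply Submodule.finrank_mono
  apply Submodule.span_mono
  rintro _ ⟨i, rfl⟩
  exact ⟨a i, rfl⟩

end Pool.Agent.Y236.SL
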