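import Pool.Agent.Y236.Clos
import Pool.Agent.Y236.SC

/-!
# Initial exponents of ideals for the lexicographic order
-/

set_option autoImplicit false

namespace Pool.Agent.Y236.SL

open Finset MvPolynomial

variable {n : ℕ} {k : Type} [Field k]

/-- The lexicographic monomial order. -/
noncomputable abbrev lx (n : ℕ) : MonomialOrder (Fin n) := MonomialOrder.lex

/-- Exponents of leading monomials of nonzero elements of an ideal. -/
def inn (Q : Ideal (MvPolynomial (Fin n) k)) : Set (Fin n →₀ ℕ) :=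
  {v | ∃ f ∈ Q, f ≠ 0 ∧ (lx n).degree f = v}

theorem inn_mono {J K : Ideal (MvPolynomial (Fin n) k)} (h : J ≤ K) : inn J ⊆ inn K := by
  rintro v ⟨f, hf, h0, hd⟩
  exact ⟨f, h hf, h0, hd⟩

theorem mem_inn_of_monomial {Q : Ideal (MvPolynomial (Fin n) k)} {v : Fin n →₀ ℕ}
    (h : monomial v (1 : k) ∈ Q) : v ∈ inn Q := by
  classical
  refine ⟨_, h, by simp, ?_⟩
  rw [MonomialOrder.degree_monomial]
  simp

theorem inn_add {J K : Ideal (MvPolynomial (Fin n) k)} {v w : Fin n →₀ ℕ} (hv : v ∈ inn J)
    (hw : w ∈ inn K) : v + w ∈ inn (J * K) := by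
  obtain ⟨f, hf, hf0, rfl⟩ := hv
  obtain ⟨g, hg, hg0, rfl⟩ := hw
  exact ⟨f * g, Ideal.mul_mem_mul hf hg, mul_ne_zero hf0 hg0, MonomialOrder.degree_mul hf0 hg0⟩

theorem inn_up {Q : Ideal (MvPolynomial (Fin n) k)} {v w : Fin n →₀ ℕ} (hv : v ∈ inn Q)
    (hw : v ≤ w) : w ∈ inn Q := by
  obtain ⟨c, rfl⟩ := exists_add_of_le hw
  have h1 : c ∈ inn (⊤ : Ideal (MvPolynomial (Fin n) k)) := mem_inn_of_monomial (by simp)
  have := inn_add hv h1
  rwa [Ideal.mul_top] at this

theorem mk_mem_span (Q : Ideal (MvPolynomial (Fin n) k)) (f : MvPolynomial (Fin n) k) :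
    (Ideal.Quotient.mk Q f) ∈ Submodule.span k
      (Set.range fun u : ((inn Q)ᶜ : Set (Fin n →₀ ℕ)) =>
        Ideal.Quotient.mk Q (monomial u.1 (1 : k))) := by
  classical
  set V := Submodule.span k
      (Set.range fun u : ((inn Q)ᶜ : Set (Fin n →₀ ℕ)) =>
        Ideal.Quotient.mk Q (monomial u.1 (1 : k))) with hV
  have hsm : ∀ (a : k) (f : MvPolynomial (Fin n) k),
      Ideal.Quotient.mk Q (a • f) = a • Ideal.Quotient.mk Q f := fun a f => rfl
  have hmon : ∀ (u : Fin n →₀ ℕ) (a : k),
      Ideal.Quotient.mk Q (monomial u (1 : k)) ∈ V → Ideal.Quotient.mk Q (monomial u a) ∈ V := by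
    intro u a h
    have : monomial u a = a • monomial u (1 : k) := by simp [smul_monomial]
    rw [this, hsm]
    exact V.smul_mem _ h
  have key : ∀ s : (lx n).syn, ∀ u : Fin n →₀ ℕ, (lx n).toSyn u = s →
      Ideal.Quotient.mk Q (monomial u (1 : k)) ∈ V := by
    intro s
    induction s using WellFoundedLT.induction with
    | _ s ih =>
    intro u hu
    by_cases hin : u ∈ inn Q
    · obtain ⟨f, hf, hf0, hd⟩ := hin
      have hc : coeff u f ≠ 0 := by
        rw [← hd]
        exact (MonomialOrder.coeff_degree_ne_zero_iff).2 hf0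
      have husup : u ∈ f.support := by rwa [MvPolynomial.mem_support_iff]
      have h1 : Ideal.Quotient.mk Q f = 0 := Ideal.Quotient.eq_zero_iff_mem.2 hf
      have h2 : f = monomial u (coeff u f) + ∑ w ∈ f.support.erase u, monomial w (coeff w f) := by
        conv_lhs => rw [f.as_sum, ← Finset.add_sum_erase _ _ husup]
      have h3 : Ideal.Quotient.mk Q (∑ w ∈ f.support.erase u, monomial w (coeff w f)) ∈ V := by
        rw [map_sum]
        apply Submodule.sum_mem
        intro w hw
        apply hmon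
        refine ih ((lx n).toSyn w) ?_ w rfl
        rw [Finset.mem_erase] at hw
        have h4 := MonomialOrder.le_degree (m := lx n) hw.2
        rw [hd] at h4
        rw [← hu]
        refine lt_of_le_of_ne h4 ?_
        intro h5
        exact hw.1 ((lx n).toSyn.injective h5)
      have h5 : Ideal.Quotient.mk Q (monomial u (coeff u f)) ∈ V := by
        rw [h2, map_add] at h1
        rw [eq_neg_of_add_eq_zero_left h1]
        exact V.neg_mem h3
      have h6 : monomial u (1 : k) = (coeff u f)⁻¹ • monomial u (coeff u f) := by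
        simp [smul_monomial, hc]
      rw [h6, hsm]
      exact V.smul_mem _ h5
    · exact Submodule.subset_span ⟨⟨u, hin⟩, rfl⟩
  rw [f.as_sum, map_sum]
  apply Submodule.sum_mem
  intro w _
  exact hmon _ _ (key _ w rfl)

theorem li_inn (Q : Ideal (MvPolynomial (Fin n) k)) :
    LinearIndependent k (fun u : ((inn Q)ᶜ : Set (Fin n →₀ ℕ)) =>
        Ideal.Quotient.mk Q (monomial u.1 (1 : k))) := by
  classical
  have h0 : LinearIndependent k (fun u : ((inn Q)ᶜ : Set (Fin n →₀ ℕ)) =>
      (monomial u.1 (1 : k) : MvPolynomial (Fin n) k)) := by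
    have h1 := (MvPolynomial.basisMonomials (Fin n) k).linearIndependent
    have h2 := h1.comp (fun u : ((inn Q)ᶜ : Set (Fin n →₀ ℕ)) => u.1) Subtype.val_injective
    simpa [Function.comp_def, MvPolynomial.coe_basisMonomials] using h2
  have h3 := h0.map (f := (Ideal.Quotient.mkₐ k Q).toLinearMap) (by
    rw [Submodule.disjoint_def]
    intro f hf hker
    by_contra hne
    have hfQ : f ∈ Q := by
      rw [LinearMap.mem_ker] at hker
      exact Ideal.Quotient.eq_zero_iff_mem.1 hker
    have hsupp : ∀ w ∈ f.support, w ∉ inn Q := by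
      have : f ∈ Submodule.span k (Set.range (fun u : ((inn Q)ᶜ : Set (Fin n →₀ ℕ)) =>
        (monomial u.1 (1 : k) : MvPolynomial (Fin n) k))) := hf
      clear hf hker hne hfQ
      induction this using Submodule.span_induction with
      | mem x hx =>
        obtain ⟨u, rfl⟩ := hx
        intro w hw
        rw [MvPolynomial.mem_support_iff, coeff_monomial] at hw
        have : u.1 = w := by
          by_contra hc
          simp [hc] at hw
        rw [← this]
        exact u.2
      | zero => simp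
      | add x y _ _ hx hy =>
        intro w hw
        rcases Finset.mem_union.1 (MvPolynomial.support_add hw) with h | h
        · exact hx w h
        · exact hy w h
      | smul a x _ hx =>
        intro w hw
        exact hx w (MvPolynomial.support_smul hw)
    exact hsupp _ ((MonomialOrder.degree_mem_support_iff (m := lx n) f).2 hne) ⟨f, hfQ, hne, rfl⟩)
  exact h3

/-- The standard monomial basis. -/
noncomputable def innBasis (Q : Ideal (MvPolynomial (Fin n) k)) :
    Module.Basis ((inn Q)ᶜ : Set (Fin n →₀ ℕ)) k (MvPolynomial (Fin n) k ⧸ Q) :=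
  Module.Basis.mk (li_inn Q) (by
    intro x _
    obtain ⟨f, rfl⟩ := Ideal.Quotient.mk_surjective x
    exact mk_mem_span Q f)

theorem finrank_quot (Q : Ideal (MvPolynomial (Fin n) k)) :
    Module.finrank k (MvPolynomial (Fin n) k ⧸ Q) = (inn Q)ᶜ.ncard := by
  rw [Module.finrank_eq_nat_card_basis (innBasis Q), Nat.card_coe_set_eq]

/-- The maximal ideal. -/
noncomputable abbrev mI (n : ℕ) (k : Type) [Field k] : Ideal (MvPolynomial (Fin n) k) :=
  MvPolynomial.idealOfVars (Fin n) k

/-- Ideals containing a power of the maximal ideal. -/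
def Cof (Q : Ideal (MvPolynomial (Fin n) k)) : Prop := ∃ D, mI n k ^ D ≤ Q

theorem Cof.mono {J K : Ideal (MvPolynomial (Fin n) k)} (h : Cof J) (hJK : J ≤ K) : Cof K := by
  obtain ⟨D, hD⟩ := h
  exact ⟨D, hD.trans hJK⟩

theorem Cof.pow {J : Ideal (MvPolynomial (Fin n) k)} (h : Cof J) (N : ℕ) : Cof (J ^ N) := by
  obtain ⟨D, hD⟩ := h
  exact ⟨D * N, by rw [pow_mul]; exact Ideal.pow_right_mono hD N⟩

theorem mem_inn_of_degree {Q : Ideal (MvPolynomial (Fin n) k)} {D : ℕ} (h : mI n k ^ D ≤ Q)
    {u : Fin n →₀ ℕ} (hu : D ≤ u.degree) : u ∈ inn Q := by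
  apply mem_inn_of_monomial
  apply h
  rw [MvPolynomial.monomial_mem_pow_idealOfVars_iff _ _ one_ne_zero]
  exact hu

theorem Cof.finite {Q : Ideal (MvPolynomial (Fin n) k)} (h : Cof Q) : (inn Q)ᶜ.Finite := by
  obtain ⟨D, hD⟩ := h
  refine (Finsupp.finite_of_degree_lt D).subset ?_
  intro u hu
  by_contra hc
  exact hu (mem_inn_of_degree hD (not_lt.1 hc))

theorem Cof.fd {Q : Ideal (MvPolynomial (Fin n) k)} (h : Cof Q) :
    Module.Finite k (MvPolynomial (Fin n) k ⧸ Q) := by
  have : Finite ((inn Q)ᶜ : Set (Fin n →₀ ℕ)) := h.finite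
  exact Module.Finite.of_basis (innBasis Q)

/-- Monomial ideals. -/
noncomputable def mon (k : Type) [Field k] (M : Set (Fin n →₀ ℕ)) : Ideal (MvPolynomial (Fin n) k) :=
  Ideal.span ((fun u => monomial u (1 : k)) '' M)

theorem mem_mon {M : Set (Fin n →₀ ℕ)} {f : MvPolynomial (Fin n) k} :
    f ∈ mon k M ↔ ∀ w ∈ f.support, ∃ u ∈ M, u ≤ w :=
  MvPolynomial.mem_ideal_span_monomial_image

theorem mem_mon_up {M : Set (Fin n →₀ ℕ)} (hM : IsUpperSet M) {f : MvPolynomial (Fin n) k} :
    f ∈ mon k M ↔ ∀ w ∈ f.support, w ∈ M := by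
  rw [mem_mon]
  constructor
  · intro h w hw
    obtain ⟨u, hu, huw⟩ := h w hw
    exact hM huw hu
  · intro h w hw
    exact ⟨w, h w hw, le_rfl⟩

theorem monomial_mem_mon {M : Set (Fin n →₀ ℕ)} {u : Fin n →₀ ℕ} (h : u ∈ M) :
    monomial u (1 : k) ∈ mon k M :=
  Ideal.subset_span ⟨u, h, rfl⟩

theorem mon_mono {M M' : Set (Fin n →₀ ℕ)} (h : M ⊆ M') : mon k M ≤ mon k M' :=
  Ideal.span_mono (Set.image_mono h)

theorem inn_isUpper (Q : Ideal (MvPolynomial (Fin n) k)) : IsUpperSet (inn Q) :=
  fun _ _ h hv => inn_up hv h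

theorem inn_mon {M : Set (Fin n →₀ ℕ)} (hM : IsUpperSet M) : inn (mon k M) = M := by
  apply Set.Subset.antisymm
  · rintro v ⟨f, hf, hf0, rfl⟩
    exact (mem_mon_up hM).1 hf _ ((MonomialOrder.degree_mem_support_iff (m := lx n) f).2 hf0)
  · intro v hv
    exact mem_inn_of_monomial (monomial_mem_mon hv)

theorem mon_inn_mul (J K : Ideal (MvPolynomial (Fin n) k)) :
    mon k (inn J) * mon k (inn K) ≤ mon k (inn (J * K)) := by
  unfold mon
  rw [Ideal.span_mul_span', Ideal.span_le]
  rintro _ ⟨_, ⟨u, hu, rfl⟩, _, ⟨w, hw, rfl⟩, rfl⟩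
  simp only
  rw [monomial_mul, one_mul]
  exact Ideal.subset_span ⟨u + w, inn_add hu hw, rfl⟩

theorem mon_inn_pow (J : Ideal (MvPolynomial (Fin n) k)) (N : ℕ) :
    mon k (inn J) ^ N ≤ mon k (inn (J ^ N)) := by
  induction N with
  | zero =>
    rw [pow_zero, pow_zero, Ideal.one_eq_top, top_le_iff, Ideal.eq_top_iff_one]
    have : (1 : MvPolynomial (Fin n) k) = monomial 0 1 := rfl
    rw [this]
    apply monomial_mem_mon
    apply mem_inn_of_monomial
    simp
  | succ N ih =>
    rw [pow_succ, pow_succ]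
    exact (Ideal.mul_mono_left ih).trans (mon_inn_mul _ _)

theorem monomial_mem_mon_pow {M : Set (Fin n →₀ ℕ)} {N : ℕ} {u : Fin n →₀ ℕ}
    (h : u ∈ PowSet M N) : monomial u (1 : k) ∈ mon k M ^ N := by
  obtain ⟨t, h1, h2, h3⟩ := h
  obtain ⟨c, rfl⟩ := exists_add_of_le h3
  have h4 : monomial (t.sum + c) (1 : k) = monomial t.sum 1 * monomial c 1 := by
    rw [monomial_mul, one_mul]
  rw [h4]
  apply Ideal.mul_mem_right
  clear h3 h4
  induction t using Multiset.induction_on generalizing N with
  | empty =>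
    rw [Multiset.card_zero] at h1
    subst h1
    simp
  | cons a t ih =>
    rw [Multiset.card_cons] at h1
    subst h1
    rw [Multiset.sum_cons, pow_succ']
    have h5 : monomial (a + t.sum) (1 : k) = monomial a 1 * monomial t.sum 1 := by
      rw [monomial_mul, one_mul]
    rw [h5]
    exact Ideal.mul_mem_mul (monomial_mem_mon (h2 a (Multiset.mem_cons_self a t)))
      (ih rfl (fun x hx => h2 x (Multiset.mem_cons_of_mem hx)))

/-- Exponents of total degree less than `D`. -/
abbrev Bd (n D : ℕ) : Type := {u : Fin n →₀ ℕ // u.degree < D}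

instance (n D : ℕ) : Finite (Bd n D) := Finsupp.finite_of_degree_lt D

/-- Truncation. -/
noncomputable def trunc (k : Type) [Field k] (n D : ℕ) : MvPolynomial (Fin n) k →ₗ[k] (Bd n D → k) where
  toFun f := fun u => coeff u.1 f
  map_add' f g := by funext u; simp
  map_smul' a f := by funext u; simp

theorem trunc_apply (D : ℕ) (f : MvPolynomial (Fin n) k) (u : Bd n D) :
    trunc k n D f u = coeff u.1 f := rfl

theorem trunc_surjective (D : ℕ) : Function.Surjective (trunc k n D) := by
  classical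
  have := Fintype.ofFinite (Bd n D)
  intro g
  refine ⟨∑ u : Bd n D, monomial u.1 (g u), ?_⟩
  funext w
  rw [trunc_apply, coeff_sum]
  simp only [coeff_monomial]
  rw [Finset.sum_eq_single w]
  · simp
  · intro b _ hb
    rw [if_neg]
    intro h
    exact hb (Subtype.ext h)
  · intro h
    exact absurd (Finset.mem_univ w) h

theorem trunc_ker_le {D : ℕ} {f : MvPolynomial (Fin n) k} (h : trunc k n D f = 0) :
    f ∈ mI n k ^ D := by
  rw [MvPolynomial.mem_pow_idealOfVars_iff']
  intro x hx
  exact congrFun h ⟨x, hx⟩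

theorem finrank_trunc {D : ℕ} {G : Ideal (MvPolynomial (Fin n) k)} (h : mI n k ^ D ≤ G) :
    Module.finrank k (MvPolynomial (Fin n) k ⧸ G) +
      Module.finrank k ((G.restrictScalars k).map (trunc k n D)) = Nat.card (Bd n D) := by
  classical
  have := Fintype.ofFinite (Bd n D)
  set W := (G.restrictScalars k).map (trunc k n D) with hW
  have hcomap : W.comap (trunc k n D) = G.restrictScalars k := by
    rw [hW, Submodule.comap_map_eq, sup_eq_left]
    intro f hf
    exact h (trunc_ker_le hf)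
  have e1 : ((MvPolynomial (Fin n) k) ⧸ (G.restrictScalars k)) ≃ₗ[k] ((Bd n D → k) ⧸ W) := by
    have hk : LinearMap.ker (W.mkQ ∘ₗ trunc k n D) = G.restrictScalars k := by
      rw [LinearMap.ker_comp, Submodule.ker_mkQ, hcomap]
    have hs : Function.Surjective (W.mkQ ∘ₗ trunc k n D) :=
      (Submodule.mkQ_surjective W).comp (trunc_surjective D)
    exact (Submodule.quotEquivOfEq _ _ hk.symm).trans
      (LinearMap.quotKerEquivOfSurjective _ hs)
  have e2 : Module.finrank k (MvPolynomial (Fin n) k ⧸ G) =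
      Module.finrank k ((MvPolynomial (Fin n) k) ⧸ (G.restrictScalars k)) := rfl
  rw [e2, e1.finrank_eq, Submodule.finrank_quotient_add_finrank, Module.finrank_fintype_fun_eq_card,
    Nat.card_eq_fintype_card]

end Pool.Agent.Y236.SL
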