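import Pool.Agent.Y236.Rel

/-!
# Sections by coordinate forms, the polynomial form of the theorem
-/

set_option autoImplicit false

namespace Pool.Agent.Y236.SL

open Finset MvPolynomial

variable {n : ℕ} {k : Type} [Field k]

/-- The ideal of the last variables. -/
noncomputable def Xm (k : Type) [Field k] (n m : ℕ) : Ideal (MvPolynomial (Fin n) k) :=
  Ideal.span {f | ∃ l : Fin n, m ≤ (l : ℕ) ∧ f = X l}

theorem inn_Xm {m : ℕ} {G : Ideal (MvPolynomial (Fin n) k)} (h : Xm k n m ≤ G)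
    {u : Fin n →₀ ℕ} (hu : u ∉ inn G) (l : Fin n) (hl : m ≤ (l : ℕ)) : u l = 0 := by
  by_contra hne
  apply hu
  have h1 : (X l : MvPolynomial (Fin n) k) ∈ G := h (Ideal.subset_span ⟨l, hl, rfl⟩)
  refine inn_up (v := Finsupp.single l 1) (mem_inn_of_monomial h1) ?_
  rw [Finsupp.single_le_iff]
  omega

theorem sup_pow_le {A : Type*} [CommRing A] (K L : Ideal A) (t : ℕ) :
    (K ⊔ L) ^ t ≤ K ^ t ⊔ L := by
  induction t with
  | zero => rw [pow_zero, pow_zero]; exact le_sup_left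
  | succ t ih =>
    rw [pow_succ, pow_succ]
    refine (Ideal.mul_mono_left ih).trans ?_
    rw [Ideal.mul_sup, Ideal.sup_mul, Ideal.sup_mul]
    refine sup_le (sup_le le_sup_left ?_) (sup_le ?_ ?_)
    · exact (Ideal.mul_le_left : L * K ≤ L).trans le_sup_right
    · exact (Ideal.mul_le_right).trans le_sup_right
    · exact (Ideal.mul_le_right).trans le_sup_right

theorem inn_nsmul {K : Ideal (MvPolynomial (Fin n) k)} {v : Fin n →₀ ℕ} (hv : v ∈ inn K) (t : ℕ) :
    t • v ∈ inn (K ^ t) := by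
  induction t with
  | zero =>
    apply mem_inn_of_monomial
    simp
  | succ t ih =>
    rw [succ_nsmul, pow_succ]
    exact inn_add ih hv

theorem lech_step {m : ℕ} (hm : m ≤ n) {K : Ideal (MvPolynomial (Fin n) k)} (hK : Cof K)
    (t : ℕ) (ht : 0 < t) :
    dq (K ^ t ⊔ Xm k n m) ≤ t ^ m * dq (K ⊔ Xm k n m) := by
  classical
  rw [dq_eq, dq_eq]
  set G := K ^ t ⊔ Xm k n m with hG
  set G1 := K ⊔ Xm k n m with hG1
  have hfin : (inn G1)ᶜ.Finite := (hK.mono le_sup_left).finite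
  let fl : (Fin n →₀ ℕ) → (Fin n →₀ ℕ) := fun u => u.mapRange (· / t) (Nat.zero_div t)
  have hfl : ∀ u ∈ (inn G)ᶜ, fl u ∈ (inn G1)ᶜ := by
    intro u hu hc
    apply hu
    have h1 := inn_mono (sup_pow_le K (Xm k n m) t) (inn_nsmul hc t)
    refine inn_up h1 ?_
    intro l
    simp only [fl, Finsupp.smul_apply, Finsupp.mapRange_apply, smul_eq_mul]
    exact Nat.mul_div_le _ _
  let P : Set ((Fin n →₀ ℕ) × (Fin m → Fin t)) := (inn G1)ᶜ ×ˢ Set.univ
  have hPf : P.Finite := hfin.prod Set.finite_univ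
  have hPc : P.ncard = t ^ m * (inn G1)ᶜ.ncard := by
    rw [Set.ncard_prod, Set.ncard_univ, Nat.card_eq_fintype_card, Fintype.card_fun,
      Fintype.card_fin, Fintype.card_fin, mul_comm]
  rw [← hPc]
  refine Set.ncard_le_ncard_of_injOn
    (fun u => (fl u, fun l => ⟨u ⟨l, lt_of_lt_of_le l.2 hm⟩ % t, Nat.mod_lt _ ht⟩)) ?_ ?_ hPf
  · intro u hu
    exact ⟨hfl u hu, Set.mem_univ _⟩
  · intro u hu w hw huw
    ext l
    by_cases hl : (l : ℕ) < m
    · have h1 : fl u = fl w := congrArg Prod.fst huw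
      have h2 : u l / t = w l / t := by
        have := DFunLike.congr_fun h1 l
        simpa [fl] using this
      have h3 := congrFun (congrArg Prod.snd huw) ⟨l, hl⟩
      have h4 : u l % t = w l % t := congrArg Fin.val h3
      rw [← Nat.div_add_mod (u l) t, ← Nat.div_add_mod (w l) t, h2, h4]
    · rw [inn_Xm (le_sup_right : Xm k n m ≤ G) hu l (not_lt.1 hl),
        inn_Xm (le_sup_right : Xm k n m ≤ G) hw l (not_lt.1 hl)]

theorem mon_section (m N : ℕ) {M : Set (Fin n →₀ ℕ)}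
    (hf : {u : Fin n →₀ ℕ | (∀ l : Fin n, m ≤ l → u l = 0) ∧ u ∉ PowSet M N}.Finite) :
    dq (mon k M ^ N ⊔ Xm k n m) ≤
      {u : Fin n →₀ ℕ | (∀ l : Fin n, m ≤ l → u l = 0) ∧ u ∉ PowSet M N}.ncard := by
  rw [dq_eq]
  refine Set.ncard_le_ncard ?_ hf
  intro u hu
  refine ⟨fun l hl => inn_Xm le_sup_right hu l hl, fun hc => hu ?_⟩
  exact mem_inn_of_monomial ((le_sup_left : mon k M ^ N ≤ _) (monomial_mem_mon_pow hc))

/-- The vectors used to complete the linear forms to a coordinate system. -/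
def bc {d : ℕ} (c : Fin d → Fin (d + 1) → k) (a : Fin (d + 1)) : Fin (d + 1) → k :=
  if h : (a : ℕ) = 0 then Pi.single 0 1 else c ⟨d - a, by omega⟩

theorem exists_P0 (k : Type) [Field k] (d : ℕ) :
    ∃ P : MvPolynomial (Fin d × Fin (d + 1)) k, P ≠ 0 ∧
      ∀ c : Fin d → Fin (d + 1) → k, eval (fun p => c p.1 p.2) P ≠ 0 →
        LinearIndependent k (bc c) := by
  classical
  let F : Fin (d + 1) → Fin (d + 1) → MvPolynomial (Fin d × Fin (d + 1)) k := fun a t =>
    if h : (a : ℕ) = 0 then C ((Pi.single 0 1 : Fin (d + 1) → k) t)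
      else X (⟨d - a, by omega⟩, t)
  have hF : ∀ c : Fin d → Fin (d + 1) → k,
      (fun a t => eval (fun p : Fin d × Fin (d + 1) => c p.1 p.2) (F a t)) = bc c := by
    intro c
    funext a t
    simp only [F, bc]
    split_ifs with h
    · simp
    · simp
  let c0 : Fin d → Fin (d + 1) → k := fun j => Pi.single ⟨d - j, by omega⟩ 1
  have hbc0 : bc c0 = fun a => Pi.single a 1 := by
    funext a
    unfold bc
    split_ifs with h
    · have : a = 0 := Fin.ext h
      rw [this]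
    · simp only [c0]
      congr 1
      apply Fin.ext
      simp only
      have := a.2
      omega
  have hli : LinearIndependent k
      (fun a t => eval (fun p : Fin d × Fin (d + 1) => c0 p.1 p.2) (F a t)) := by
    rw [hF, hbc0]
    have := (Pi.basisFun k (Fin (d + 1))).linearIndependent
    convert this using 1
    funext a
    rw [Pi.basisFun_apply]
  obtain ⟨P, hP0, hP⟩ := sc_indep F (fun p : Fin d × Fin (d + 1) => c0 p.1 p.2) hli
  refine ⟨P, ?_, ?_⟩
  · rintro rfl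
    simp at hP0
  · intro c hc
    have := hP (fun p => c p.1 p.2) hc
    rwa [hF] at this

theorem Li_eq_Xm {d : ℕ} (c : Fin d → Fin (d + 1) → k)
    (e : (Fin (d + 1) → k) → (Fin (d + 1) → k)) (he : ∀ a, e (bc c a) = Pi.single a 1)
    (i : ℕ) (hi : i ≤ d) :
    Li i (fun j => e (c j)) = Xm k (d + 1) (d + 1 - i) := by
  have hc : ∀ j : Fin d, e (c j) = Pi.single ⟨d - j, by omega⟩ 1 := by
    intro j
    rw [← he]
    congr 1
    unfold bc
    have hj := j.2
    rw [dif_neg (by simp only; omega)]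
    congr 1
    apply Fin.ext
    simp only
    omega
  unfold Li Xm
  congr 1
  ext f
  constructor
  · rintro ⟨j, hj, rfl⟩
    refine ⟨⟨d - j, by omega⟩, by simp only; omega, ?_⟩
    simp only
    rw [hc, lin_single]
  · rintro ⟨l, hl, rfl⟩
    have hl2 := l.2
    refine ⟨⟨d - l, by omega⟩, by simp only; omega, ?_⟩
    simp only
    rw [hc, lin_single]
    congr 1
    apply Fin.ext
    simp only
    omega

/-- The Lech step for general linear forms. -/
theorem lech_gen {d : ℕ} {I : Ideal (MvPolynomial (Fin (d + 1)) k)} (hI : Cof I)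
    {c : Fin d → Fin (d + 1) → k} (hc : LinearIndependent k (bc c)) (i : ℕ) (hi : i ≤ d)
    (N t : ℕ) (ht : 0 < t) :
    dq (I ^ (N * t) ⊔ Li i c) ≤ t ^ (d + 1 - i) * dq (I ^ N ⊔ Li i c) := by
  classical
  let b := basisOfLinearIndependentOfCardEqFinrank hc (by simp)
  let e : (Fin (d + 1) → k) ≃ₗ[k] (Fin (d + 1) → k) := b.equivFun
  have he : ∀ a, e (bc c a) = Pi.single a 1 := by
    intro a
    have h1 : b a = bc c a := by
      simp [b]
    rw [← h1]
    funext l
    simp only [e]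
    rw [Module.Basis.equivFun_self]
    simp [Pi.single_apply, eq_comm]
  have h1 : ∀ N, dq (I ^ N ⊔ Li i c) = dq (im e I ^ N ⊔ Xm k (d + 1) (d + 1 - i)) := by
    intro N
    rw [← dq_im e, im_sup, im_pow, im_Li, Li_eq_Xm c e he i hi]
  rw [h1, h1, pow_mul]
  obtain ⟨D, hD⟩ := hI
  exact lech_step (by omega) (Cof.pow ⟨D, im_Cof e hD⟩ N) t ht

theorem one_le_coeff_one (d : ℕ) : 1 ≤ (ascPochhammer ℕ (d + 1)).coeff 1 := by
  rw [ascPochhammer_succ_left, Polynomial.coeff_X_mul, Polynomial.coeff_zero_eq_eval_zero,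
    Polynomial.eval_comp]
  simp only [Polynomial.eval_add, Polynomial.eval_X, Polynomial.eval_one, zero_add]
  rw [ascPochhammer_nat_eq_ascFactorial]
  exact Nat.ascFactorial_pos _ _

theorem sum_reindex (d : ℕ) (g : ℕ → ℝ) :
    ∑ m ∈ Finset.range (d + 1 + 1), g m = ∑ i : Fin d, g (d + 1 - i) + g 1 + g 0 := by
  rw [Finset.sum_range_succ', Finset.sum_range_succ']
  congr 2
  rw [Fin.sum_univ_eq_sum_range (fun i => g (d + 1 - i)), ← Finset.sum_range_reflect]
  apply Finset.sum_congr rfl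
  intro j hj
  rw [Finset.mem_range] at hj
  congr 1
  omega

/-- The polynomial form of the theorem. -/
theorem main_poly [Infinite k] {d : ℕ} {I : Ideal (MvPolynomial (Fin (d + 1)) k)} (hI : Cof I)
    (hne : I ≠ ⊤) :
    ∃ P : MvPolynomial (Fin d × Fin (d + 1)) k, P ≠ 0 ∧
      ∀ c : Fin d → Fin (d + 1) → k, eval (fun p => c p.1 p.2) P ≠ 0 →
        LinearIndependent k (bc c) ∧
        ∀ e : Fin d → ℝ, (∀ (i : Fin d) (N : ℕ), 0 < N →
          e i ≤ (Nat.factorial (d + 1 - i) : ℝ) * (dq (I ^ N ⊔ Li i c) : ℝ) /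
            (N : ℝ) ^ (d + 1 - (i : ℕ))) →
        ∑ i : Fin d, ((ascPochhammer ℕ (d + 1)).coeff (d + 1 - i.val) : ℝ) * e i ≤
          (Nat.factorial (d + 1) : ℝ) * (dq I : ℝ) := by
  classical
  obtain ⟨D, hD⟩ := hI
  have hI : Cof I := ⟨D, hD⟩
  obtain ⟨M, hM, hF⟩ := exists_full d hD
  have hMf := hM.finite
  obtain ⟨C, hC⟩ := exists_const hMf
  have hClf : (Cl M)ᶜ.Finite := hMf.subset (Set.compl_subset_compl.2 (subset_Cl M))
  have hSt := Cl_stable hF
  -- zero is not in M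
  have h0 : (0 : Fin (d + 1) →₀ ℕ) ∉ M := by
    intro h
    have h1 : Mᶜ = ∅ := by
      rw [Set.compl_empty_iff, Set.eq_univ_iff_forall]
      intro u
      exact hM.up (by simp) h
    have h2 := hM.card
    rw [h1, Set.ncard_empty] at h2
    have h3 : Module.finrank k (MvPolynomial (Fin (d + 1)) k ⧸ I) = 0 := h2.symm
    have := hI.fd
    rw [Module.finrank_zero_iff] at h3
    exact hne (Ideal.Quotient.subsingleton_iff.1 h3)
  have h0' := zero_not_mem_Cl h0
  set O : ℕ → ℕ := fun m => (Om (Cl M) m).ncard with hO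
  have hO1 : 1 ≤ O 1 := by
    have hmem : (fun _ => 0 : Fin 1 → ℕ) ∈ Om (Cl M) 1 := by
      refine ⟨1, 0, h0', ?_⟩
      funext l
      simp [ext, psum]
    have := Set.ncard_pos (Om_finite hClf (by omega : 1 ≤ d + 1)) |>.2 ⟨_, hmem⟩
    exact this
  have hburn := burnside (Cl M) hSt hClf
  -- limit bound
  let f : ℕ → ℝ := fun N => ∑ i : Fin d, ((ascPochhammer ℕ (d + 1)).coeff (d + 1 - i.val) : ℝ) *
    ((((N : ℝ) + C + (d + 1 - i.val : ℕ)) / N) ^ (d + 1 - i.val) * (O (d + 1 - i.val) : ℝ))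
  let Lm : ℝ := ∑ i : Fin d, ((ascPochhammer ℕ (d + 1)).coeff (d + 1 - i.val) : ℝ) *
    (1 ^ (d + 1 - i.val) * (O (d + 1 - i.val) : ℝ))
  have hlim : Filter.Tendsto f Filter.atTop (nhds Lm) := by
    apply tendsto_finsetSum
    intro i _
    apply Filter.Tendsto.const_mul
    apply Filter.Tendsto.mul_const
    apply Filter.Tendsto.pow
    have h1 : Filter.Tendsto (fun N : ℕ => 1 + ((C : ℝ) + (d + 1 - i.val : ℕ)) / (N : ℝ))
        Filter.atTop (nhds (1 + 0)) :=
      Filter.Tendsto.const_add _ (tendsto_const_div_atTop_nhds_zero_nat _)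
    rw [add_zero] at h1
    refine h1.congr' ?_
    filter_upwards [Filter.eventually_gt_atTop 0] with N hN
    have : (N : ℝ) ≠ 0 := by positivity
    field_simp
    ring
  have hlt : Lm < (Nat.factorial (d + 1) : ℝ) * (dq I : ℝ) := by
    have h1 : ((∑ m ∈ Finset.range (d + 1 + 1), (ascPochhammer ℕ (d + 1)).coeff m * O m : ℕ) : ℝ) ≤
        ((Nat.factorial (d + 1) * (Cl M)ᶜ.ncard : ℕ) : ℝ) := by exact_mod_cast hburn
    have h2 : ((Nat.factorial (d + 1) * (Cl M)ᶜ.ncard : ℕ) : ℝ) ≤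
        (Nat.factorial (d + 1) : ℝ) * (dq I : ℝ) := by
      rw [← hM.card]
      have : (Cl M)ᶜ.ncard ≤ Mᶜ.ncard :=
        Set.ncard_le_ncard (Set.compl_subset_compl.2 (subset_Cl M)) hMf
      exact_mod_cast Nat.mul_le_mul_left _ this
    rw [Nat.cast_sum] at h1
    have h3 := sum_reindex d (fun m => (((ascPochhammer ℕ (d + 1)).coeff m * O m : ℕ) : ℝ))
    rw [h3] at h1
    have h4 : Lm = ∑ i : Fin d, (((ascPochhammer ℕ (d + 1)).coeff (d + 1 - i) *
        O (d + 1 - i) : ℕ) : ℝ) := by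
      simp only [Lm, one_pow, one_mul, Nat.cast_mul]
    have h5 : (1 : ℝ) ≤ (((ascPochhammer ℕ (d + 1)).coeff 1 * O 1 : ℕ) : ℝ) := by
      exact_mod_cast Nat.mul_pos (one_le_coeff_one d) hO1
    have h6 : (0 : ℝ) ≤ (((ascPochhammer ℕ (d + 1)).coeff 0 * O 0 : ℕ) : ℝ) := by positivity
    rw [h4]
    linarith
  obtain ⟨N0, hN0, hN0f⟩ := ((Filter.eventually_gt_atTop 0).and
    (hlim.eventually (gt_mem_nhds hlt))).exists
  -- the generic polynomials
  obtain ⟨P0, hP0, hP0c⟩ := exists_P0 k d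
  let c1 : Fin d → Fin (d + 1) → k := fun j => Pi.single ⟨d - j, by omega⟩ 1
  have hbc1 : ∀ a, id (bc c1 a) = Pi.single a 1 := by
    intro a
    unfold bc
    split_ifs with h
    · have : a = 0 := Fin.ext h
      rw [this]
      rfl
    · simp only [c1, id]
      congr 1
      apply Fin.ext
      simp only
      have := a.2
      omega
  have hrel : ∀ i : Fin d, ∃ c0 : Fin d → Fin (d + 1) → k,
      dq (I ^ N0 ⊔ Li i c0) ≤ dq (mon k M ^ N0 ⊔ Li i c1) := fun i => hM.rel i N0 c1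
  choose c0 hc0 using hrel
  have hPi : ∀ i : Fin d, ∃ P : MvPolynomial (Fin d × Fin (d + 1)) k,
      eval (fun p => c0 i p.1 p.2) P ≠ 0 ∧
      ∀ c : Fin d → Fin (d + 1) → k, eval (fun p => c p.1 p.2) P ≠ 0 →
        dq (I ^ N0 ⊔ Li i c) ≤ dq (I ^ N0 ⊔ Li i (c0 i)) := fun i =>
    lemC (hI.pow N0) i (c0 i)
  choose Pi hPi0 hPi using hPi
  refine ⟨P0 * ∏ i : Fin d, Pi i, ?_, ?_⟩
  · refine mul_ne_zero hP0 (Finset.prod_ne_zero_iff.2 ?_)
    intro i _ h
    apply hPi0 i
    rw [h, map_zero]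
  · intro c hc
    rw [map_mul, map_prod] at hc
    have hcP0 := left_ne_zero_of_mul hc
    have hcPi : ∀ i : Fin d, eval (fun p => c p.1 p.2) (Pi i) ≠ 0 := fun i =>
      Finset.prod_ne_zero_iff.1 (right_ne_zero_of_mul hc) i (Finset.mem_univ i)
    refine ⟨hP0c c hcP0, ?_⟩
    intro e he
    have hbound : ∀ i : Fin d, e i ≤
        (((N0 : ℝ) + C + (d + 1 - i.val : ℕ)) / N0) ^ (d + 1 - i.val) *
          (O (d + 1 - i.val) : ℝ) := by
      intro i
      refine (he i N0 hN0).trans ?_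
      have h1 := hPi i c (hcPi i)
      have h2 := hc0 i
      have h3 : Li i c1 = Xm k (d + 1) (d + 1 - i) := Li_eq_Xm c1 id hbc1 i i.2.le
      rw [h3] at h2
      obtain ⟨h4, h5⟩ := count_le hF hMf hC N0 hN0 (d + 1 - i) (by omega)
      have h6 := mon_section (k := k) (d + 1 - i) N0 h4
      have h7 : dq (I ^ N0 ⊔ Li i c) * (d + 1 - (i : ℕ)).factorial ≤
          (N0 + C + (d + 1 - i)) ^ (d + 1 - (i : ℕ)) * O (d + 1 - i) :=
        (Nat.mul_le_mul_right _ (h1.trans (h2.trans h6))).trans h5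
      have h8 : (dq (I ^ N0 ⊔ Li i c) : ℝ) * ((d + 1 - (i : ℕ)).factorial : ℝ) ≤
          ((N0 : ℝ) + C + (d + 1 - i.val : ℕ)) ^ (d + 1 - (i : ℕ)) * (O (d + 1 - i) : ℝ) := by
        exact_mod_cast h7
      have hNpos : (0 : ℝ) < (N0 : ℝ) ^ (d + 1 - (i : ℕ)) := by positivity
      rw [div_pow, div_mul_eq_mul_div, div_le_div_iff_of_pos_right hNpos, mul_comm]
      exact h8
    calc ∑ i : Fin d, ((ascPochhammer ℕ (d + 1)).coeff (d + 1 - i.val) : ℝ) * e i
        ≤ f N0 := by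
          apply Finset.sum_le_sum
          intro i _
          exact mul_le_mul_of_nonneg_left (hbound i) (by positivity)
      _ ≤ _ := hN0f.le

end Pool.Agent.Y236.SL
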