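import Mathlib

/-!
# Cumulative sums of exponent vectors, dominance and symmetrised complements
-/

set_option autoImplicit false

namespace Pool.Agent.Y236.SL

open Finset

variable {n : ℕ}

/-- Cumulative sums of an exponent vector. -/
def psum (v : Fin n →₀ ℕ) (k : Fin n) : ℕ := ∑ l ∈ Finset.Iic k, v l

theorem psum_mono (v : Fin n →₀ ℕ) : Monotone (psum v) := by
  intro a b hab
  exact Finset.sum_le_sum_of_subset (Finset.Iic_subset_Iic.2 hab)

theorem psum_zero (v : Fin n →₀ ℕ) (h : 0 < n) : psum v ⟨0, h⟩ = v ⟨0, h⟩ := by
  have : Finset.Iic (⟨0, h⟩ : Fin n) = {⟨0, h⟩} := by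
    ext x
    simp only [Finset.mem_Iic, Finset.mem_singleton, Fin.le_def, Fin.ext_iff]
    omega
  simp [psum, this]

theorem psum_succ (v : Fin n →₀ ℕ) (k : ℕ) (h : k + 1 < n) :
    psum v ⟨k + 1, h⟩ = psum v ⟨k, Nat.lt_of_succ_lt h⟩ + v ⟨k + 1, h⟩ := by
  have : Finset.Iic (⟨k + 1, h⟩ : Fin n) =
      insert ⟨k + 1, h⟩ (Finset.Iic (⟨k, Nat.lt_of_succ_lt h⟩ : Fin n)) := by
    ext x
    simp only [Finset.mem_Iic, Finset.mem_insert, Fin.le_def, Fin.ext_iff]
    omega
  unfold psum
  rw [this, Finset.sum_insert, add_comm]
  simp [Fin.le_def]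

/-- Differences of a monotone vector. -/
noncomputable def dif (y : Fin n → ℕ) : Fin n →₀ ℕ :=
  Finsupp.equivFunOnFinite.symm
    (fun k => if h : (k : ℕ) = 0 then y k else y k - y ⟨k - 1, by omega⟩)

theorem dif_zero (y : Fin n → ℕ) (h : 0 < n) : dif y ⟨0, h⟩ = y ⟨0, h⟩ := by
  simp [dif]

theorem dif_succ (y : Fin n → ℕ) (k : ℕ) (h : k + 1 < n) :
    dif y ⟨k + 1, h⟩ = y ⟨k + 1, h⟩ - y ⟨k, Nat.lt_of_succ_lt h⟩ := by
  simp [dif]

theorem psum_dif (y : Fin n → ℕ) (hy : Monotone y) : psum (dif y) = y := by
  funext ⟨k, hk⟩
  induction k with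
  | zero => rw [psum_zero, dif_zero]
  | succ k ih =>
    rw [psum_succ, dif_succ, ih (Nat.lt_of_succ_lt hk)]
    have : y ⟨k, Nat.lt_of_succ_lt hk⟩ ≤ y ⟨k + 1, hk⟩ := hy (by simp [Fin.le_def])
    omega

theorem psum_injective : Function.Injective (psum (n := n)) := by
  intro v w h
  ext ⟨k, hk⟩
  cases k with
  | zero =>
    have := congrFun h ⟨0, hk⟩
    rwa [psum_zero, psum_zero] at this
  | succ k =>
    have h1 := congrFun h ⟨k + 1, hk⟩
    have h2 := congrFun h ⟨k, Nat.lt_of_succ_lt hk⟩
    rw [psum_succ, psum_succ, h2] at h1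
    omega

theorem psum_add (v w : Fin n →₀ ℕ) : psum (v + w) = psum v + psum w := by
  funext k
  simp [psum, Finset.sum_add_distrib]

theorem psum_sum {ι : Type*} (s : Finset ι) (f : ι → Fin n →₀ ℕ) :
    psum (∑ i ∈ s, f i) = ∑ i ∈ s, psum (f i) := by
  classical
  induction s using Finset.induction_on with
  | empty => funext k; simp [psum]
  | insert a s ha ih => rw [Finset.sum_insert ha, Finset.sum_insert ha, psum_add, ih]

theorem psum_single (j k : Fin n) (a : ℕ) :
    psum (Finsupp.single j a) k = if j ≤ k then a else 0 := by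
  unfold psum
  by_cases h : j ≤ k
  · rw [if_pos h, Finset.sum_eq_single j]
    · simp
    · intro b _ hb
      simp [hb.symm]
    · intro hb
      exact absurd (Finset.mem_Iic.2 h) hb
  · rw [if_neg h]
    apply Finset.sum_eq_zero
    intro b hb
    have : j ≠ b := by
      rintro rfl
      exact h (Finset.mem_Iic.1 hb)
    simp [this]

/-- A set of exponent vectors is strongly stable: an upper set closed under moving one unit to a
smaller index. -/
structure Stable (S : Set (Fin n →₀ ℕ)) : Prop where
  up : ∀ v ∈ S, ∀ w, v ≤ w → w ∈ S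
  move : ∀ v : Fin n →₀ ℕ, ∀ i j : Fin n, i < j →
    v + Finsupp.single j 1 ∈ S → v + Finsupp.single i 1 ∈ S

theorem Stable.dom {S : Set (Fin n →₀ ℕ)} (hS : Stable S) :
    ∀ (v w : Fin n →₀ ℕ), v ∈ S → (∀ k, psum v k ≤ psum w k) → w ∈ S := by
  suffices H : ∀ (N : ℕ) (v w : Fin n →₀ ℕ), v ∈ S → (∀ k, psum v k ≤ psum w k) →
      ∑ k, (psum w k - psum v k) = N → w ∈ S by
    intro v w hv h
    exact H _ v w hv h rfl
  intro N
  induction N with
  | zero =>
    intro v w hv h hN
    rw [Finset.sum_eq_zero_iff] at hN
    have : v = w := psum_injective (by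
      funext k
      have h1 := hN k (Finset.mem_univ k)
      have h2 := h k
      omega)
    rwa [← this]
  | succ N ih =>
    intro v w hv h hN
    have hne : (Finset.univ.filter (fun k => psum v k < psum w k)).Nonempty := by
      by_contra hcon
      rw [Finset.not_nonempty_iff_eq_empty, Finset.filter_eq_empty_iff] at hcon
      have : ∑ k, (psum w k - psum v k) = 0 := by
        apply Finset.sum_eq_zero
        intro k _
        have := hcon (Finset.mem_univ k)
        omega
      omega
    obtain ⟨k, hk, hmax⟩ := Finset.exists_max_image _ (fun k : Fin n => (k : ℕ)) hne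
    rw [Finset.mem_filter] at hk
    have hkl : ∀ l : Fin n, k < l → psum v l = psum w l := by
      intro l hl
      by_contra hcon
      have h1 := h l
      have h2 := hmax l (by rw [Finset.mem_filter]; exact ⟨Finset.mem_univ _, by omega⟩)
      have h3 : (k : ℕ) < l := hl
      omega
    by_cases hlast : (k : ℕ) + 1 < n
    · -- move from `k + 1` to `k`
      let k1 : Fin n := ⟨k + 1, hlast⟩
      have hkk1 : k < k1 := by simp [k1, Fin.lt_def]
      have e1 := psum_succ v k hlast
      have e2 := psum_succ w k hlast
      have e3 := hkl k1 hkk1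
      have hv1 : 1 ≤ v k1 := by
        have : psum v k < psum w k := hk.2
        simp only [k1] at *
        simp only [Fin.eta] at e1 e2
        omega
      obtain ⟨v', hv'⟩ : ∃ v' : Fin n →₀ ℕ, v = v' + Finsupp.single k1 1 :=
        ⟨v - Finsupp.single k1 1, (tsub_add_cancel_of_le (by
          rw [Finsupp.single_le_iff]; exact hv1)).symm⟩
      have hmv : v' + Finsupp.single k 1 ∈ S := hS.move v' k k1 hkk1 (hv' ▸ hv)
      have hps : ∀ l, psum (v' + Finsupp.single k 1) l = psum v l + if l = k then 1 else 0 := by
        intro l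
        rw [hv', psum_add, psum_add]
        simp only [Pi.add_apply, psum_single]
        by_cases hl : l = k
        · subst hl
          have : ¬ k1 ≤ l := not_le.2 hkk1
          simp [this]
        · rw [if_neg hl]
          have : (k ≤ l) ↔ (k1 ≤ l) := by
            simp only [k1, Fin.le_def]
            have : (l : ℕ) ≠ k := fun h => hl (Fin.ext h)
            omega
          simp [this]
      refine ih _ w hmv (fun l => ?_) ?_
      · rw [hps]
        by_cases hl : l = k
        · subst hl; simp; exact hk.2
        · simp [hl]; exact h l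
      · have h1 : ∑ l, (psum w l - psum v l) =
            ∑ l, ((psum w l - psum (v' + Finsupp.single k 1) l) + if l = k then 1 else 0) := by
          apply Finset.sum_congr rfl
          intro l _
          rw [hps]
          by_cases hl : l = k
          · subst hl
            have := hk.2
            simp
            omega
          · simp [hl]
        rw [Finset.sum_add_distrib, Finset.sum_ite_eq'] at h1
        simp at h1
        omega
    · -- add one at the last index
      have hkn : ∀ l : Fin n, l ≤ k := by
        intro l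
        rw [Fin.le_def]
        have := l.2
        omega
      have hps : ∀ l, psum (v + Finsupp.single k 1) l = psum v l + if l = k then 1 else 0 := by
        intro l
        rw [psum_add]
        simp only [Pi.add_apply, psum_single]
        have : k ≤ l ↔ l = k := ⟨fun h => le_antisymm (hkn l) h, fun h => h ▸ le_rfl⟩
        simp [this]
      refine ih (v + Finsupp.single k 1) w (hS.up v hv _ (le_add_of_nonneg_right (by simp)))
        (fun l => ?_) ?_
      · rw [hps]
        by_cases hl : l = k
        · subst hl; simp; exact hk.2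
        · simp [hl]; exact h l
      · have h1 : ∑ l, (psum w l - psum v l) =
            ∑ l, ((psum w l - psum (v + Finsupp.single k 1) l) + if l = k then 1 else 0) := by
          apply Finset.sum_congr rfl
          intro l _
          rw [hps]
          by_cases hl : l = k
          · subst hl
            have := hk.2
            simp
            omega
          · simp [hl]
        rw [Finset.sum_add_distrib, Finset.sum_ite_eq'] at h1
        simp at h1
        omega

end Pool.Agent.Y236.SL
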