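import Pool.Agent.Y236.Fam

/-!
# Comparison of colengths of powers, linear changes of coordinates
-/

set_option autoImplicit false

namespace Pool.Agent.Y236.SL

open Finset MvPolynomial

variable {n : ℕ} {k : Type} [Field k]

/-- Comparison of the colengths of the powers plus linear sections. -/
def Rel (d : ℕ) (J K : Ideal (MvPolynomial (Fin n) k)) : Prop :=
  ∀ (i N : ℕ) (c0 : Fin d → Fin n → k), ∃ c : Fin d → Fin n → k,
    dq (J ^ N ⊔ Li i c) ≤ dq (K ^ N ⊔ Li i c0)

theorem Rel.trans {d : ℕ} {J K L : Ideal (MvPolynomial (Fin n) k)} (h1 : Rel d J K)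
    (h2 : Rel d K L) : Rel d J L := by
  intro i N c0
  obtain ⟨c1, hc1⟩ := h2 i N c0
  obtain ⟨c2, hc2⟩ := h1 i N c1
  exact ⟨c2, hc2.trans hc1⟩

theorem Cof.mon_inn {J : Ideal (MvPolynomial (Fin n) k)} (hJ : Cof J) : Cof (mon k (inn J)) := by
  obtain ⟨D, hD⟩ := hJ
  refine ⟨D, ?_⟩
  intro f hf
  rw [MvPolynomial.mem_pow_idealOfVars_iff] at hf
  rw [mem_mon_up (inn_isUpper J)]
  intro w hw
  exact mem_inn_of_degree hD (hf w hw)

theorem Rel_inn [Infinite k] (d : ℕ) {J : Ideal (MvPolynomial (Fin n) k)} (hJ : Cof J) :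
    Rel d J (mon k (inn J)) := by
  intro i N c0
  obtain ⟨c, hc⟩ := lemA (hJ.pow N) i c0
  refine ⟨c, hc.trans ?_⟩
  exact dq_anti ((hJ.mon_inn.pow N).mono le_sup_left) (sup_le_sup_right (mon_inn_pow J N) _)

/-- Linear substitution. -/
noncomputable def sub (φ : (Fin n → k) →ₗ[k] (Fin n → k)) :
    MvPolynomial (Fin n) k →ₐ[k] MvPolynomial (Fin n) k :=
  aeval (fun j : Fin n => lin (φ (Pi.single j 1)))

theorem sub_X (φ : (Fin n → k) →ₗ[k] (Fin n → k)) (j : Fin n) :
    sub φ (X j) = lin (φ (Pi.single j 1)) := by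
  simp [sub]

theorem sub_lin (φ : (Fin n → k) →ₗ[k] (Fin n → k)) (v : Fin n → k) :
    sub φ (lin v) = lin (φ v) := by
  have h1 : sub φ (lin v) = ∑ t, C (v t) * lin (φ (Pi.single t 1)) := by
    unfold lin
    rw [map_sum]
    apply Finset.sum_congr rfl
    intro t _
    rw [map_mul, sub_X, ← MvPolynomial.algebraMap_eq, AlgHom.commutes]
    rfl
  have h2 : v = ∑ t, v t • (Pi.single t (1 : k) : Fin n → k) := by
    funext l
    simp [Finset.sum_apply, Pi.single_apply]
  have h3 : ∀ (s : Finset (Fin n)) (g : Fin n → (Fin n → k)),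
      lin (∑ t ∈ s, g t) = ∑ t ∈ s, lin (g t) := by
    classical
    intro s g
    induction s using Finset.induction_on with
    | empty => simp [lin]
    | insert a s ha ih => rw [Finset.sum_insert ha, Finset.sum_insert ha, lin_add, ih]
  rw [h1]
  conv_rhs => rw [h2, map_sum, h3]
  apply Finset.sum_congr rfl
  intro t _
  rw [map_smul, lin_smul]

theorem sub_comp (φ ψ : (Fin n → k) →ₗ[k] (Fin n → k)) :
    (sub φ).comp (sub ψ) = sub (φ ∘ₗ ψ) := by
  apply MvPolynomial.algHom_ext
  intro j
  rw [AlgHom.comp_apply, sub_X, sub_lin, sub_X]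
  rfl

theorem sub_id : sub (LinearMap.id : (Fin n → k) →ₗ[k] (Fin n → k)) = AlgHom.id k _ := by
  apply MvPolynomial.algHom_ext
  intro j
  rw [sub_X, LinearMap.id_apply, lin_single]
  rfl

/-- Linear automorphisms of the polynomial ring. -/
noncomputable def subE (e : (Fin n → k) ≃ₗ[k] (Fin n → k)) :
    MvPolynomial (Fin n) k ≃ₐ[k] MvPolynomial (Fin n) k :=
  AlgEquiv.ofAlgHom (sub e.toLinearMap) (sub e.symm.toLinearMap)
    (by rw [sub_comp]; simp [sub_id]) (by rw [sub_comp]; simp [sub_id])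

theorem subE_apply (e : (Fin n → k) ≃ₗ[k] (Fin n → k)) (f : MvPolynomial (Fin n) k) :
    subE e f = sub e.toLinearMap f := rfl

theorem subE_lin (e : (Fin n → k) ≃ₗ[k] (Fin n → k)) (v : Fin n → k) :
    subE e (lin v) = lin (e v) := by
  rw [subE_apply, sub_lin]
  rfl

/-- The image of an ideal under an automorphism. -/
noncomputable def im (e : (Fin n → k) ≃ₗ[k] (Fin n → k)) (J : Ideal (MvPolynomial (Fin n) k)) :
    Ideal (MvPolynomial (Fin n) k) :=
  J.map (subE e : MvPolynomial (Fin n) k →+* MvPolynomial (Fin n) k)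

theorem dq_im (e : (Fin n → k) ≃ₗ[k] (Fin n → k)) (J : Ideal (MvPolynomial (Fin n) k)) :
    dq (im e J) = dq J :=
  (Ideal.quotientEquivAlg J (im e J) (subE e) rfl).toLinearEquiv.finrank_eq.symm

theorem im_pow (e : (Fin n → k) ≃ₗ[k] (Fin n → k)) (J : Ideal (MvPolynomial (Fin n) k)) (N : ℕ) :
    im e (J ^ N) = im e J ^ N := Ideal.map_pow _ _ _

theorem im_sup (e : (Fin n → k) ≃ₗ[k] (Fin n → k)) (J K : Ideal (MvPolynomial (Fin n) k)) :
    im e (J ⊔ K) = im e J ⊔ im e K := Ideal.map_sup _ _ _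

theorem im_mono (e : (Fin n → k) ≃ₗ[k] (Fin n → k)) {J K : Ideal (MvPolynomial (Fin n) k)}
    (h : J ≤ K) : im e J ≤ im e K := Ideal.map_mono h

theorem mem_im (e : (Fin n → k) ≃ₗ[k] (Fin n → k)) {J : Ideal (MvPolynomial (Fin n) k)}
    {f : MvPolynomial (Fin n) k} (hf : f ∈ J) : subE e f ∈ im e J :=
  Ideal.mem_map_of_mem _ hf

theorem im_Li (e : (Fin n → k) ≃ₗ[k] (Fin n → k)) {d : ℕ} (i : ℕ) (c : Fin d → Fin n → k) :
    im e (Li i c) = Li i (fun j => e (c j)) := by
  unfold im Li
  rw [Ideal.map_span]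
  congr 1
  ext f
  constructor
  · rintro ⟨_, ⟨j, hj, rfl⟩, rfl⟩
    exact ⟨j, hj, subE_lin e (c j)⟩
  · rintro ⟨j, hj, rfl⟩
    exact ⟨_, ⟨j, hj, rfl⟩, subE_lin e (c j)⟩

theorem lin_mem_mI (v : Fin n → k) : lin v ∈ mI n k := by
  unfold lin
  apply Ideal.sum_mem
  intro t _
  exact Ideal.mul_mem_left _ _ (Ideal.subset_span ⟨t, rfl⟩)

theorem im_mI (e : (Fin n → k) ≃ₗ[k] (Fin n → k)) : im e (mI n k) = mI n k := by
  apply le_antisymm
  · unfold im
    rw [Ideal.map_le_iff_le_comap, Ideal.span_le]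
    rintro _ ⟨j, rfl⟩
    rw [SetLike.mem_coe, Ideal.mem_comap, ← lin_single j]
    have : subE e (lin (Pi.single j 1)) ∈ mI n k := by
      rw [subE_lin]
      exact lin_mem_mI _
    exact this
  · rw [Ideal.span_le]
    rintro _ ⟨j, rfl⟩
    have h1 : (X j : MvPolynomial (Fin n) k) = subE e (lin (e.symm (Pi.single j 1))) := by
      rw [subE_lin, LinearEquiv.apply_symm_apply, lin_single]
    rw [SetLike.mem_coe, h1]
    exact mem_im e (lin_mem_mI _)

theorem im_Cof (e : (Fin n → k) ≃ₗ[k] (Fin n → k)) {J : Ideal (MvPolynomial (Fin n) k)} {D : ℕ}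
    (hJ : mI n k ^ D ≤ J) : mI n k ^ D ≤ im e J := by
  have h1 : im e (mI n k ^ D) = mI n k ^ D := by rw [im_pow, im_mI]
  rw [← h1]
  exact im_mono e hJ

theorem Rel_im (d : ℕ) (e : (Fin n → k) ≃ₗ[k] (Fin n → k)) (J : Ideal (MvPolynomial (Fin n) k)) :
    Rel d J (im e J) := by
  intro i N c0
  refine ⟨fun j => e.symm (c0 j), ?_⟩
  rw [← dq_im e (J ^ N ⊔ _), im_sup, im_pow, im_Li]
  simp

/-- The elementary move, adding the `j`-th coordinate to the `i`-th. -/
noncomputable def elem (k : Type) [Field k] (i j : Fin n) (h : i ≠ j) :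
    (Fin n → k) ≃ₗ[k] (Fin n → k) :=
  LinearEquiv.ofLinearMap
    { toFun := fun v => v + Pi.single i (v j)
      map_add' := fun v w => by
        rw [Pi.add_apply, Pi.single_add]
        abel
      map_smul' := fun a v => by
        rw [Pi.smul_apply, RingHom.id_apply, smul_add, Pi.single_smul] }
    { toFun := fun v => v - Pi.single i (v j)
      map_add' := fun v w => by
        rw [Pi.add_apply, Pi.single_add]
        abel
      map_smul' := fun a v => by
        rw [Pi.smul_apply, RingHom.id_apply, smul_sub, Pi.single_smul] }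
    (by
      apply LinearMap.ext
      intro v
      simp [Pi.single_eq_of_ne h.symm])
    (by
      apply LinearMap.ext
      intro v
      simp [Pi.single_eq_of_ne h.symm])

theorem elem_apply (i j : Fin n) (h : i ≠ j) (v : Fin n → k) :
    elem k i j h v = v + Pi.single i (v j) := rfl

theorem subE_elem_X (i j : Fin n) (h : i ≠ j) (t : Fin n) :
    subE (elem k i j h) (X t) = X t + if t = j then X i else 0 := by
  rw [← lin_single t, subE_lin, elem_apply, lin_add, lin_single]
  congr 1
  by_cases ht : t = j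
  · subst ht
    simp [lin_single]
  · rw [if_neg ht, Pi.single_eq_of_ne (Ne.symm ht)]
    simp [lin]

/-- The support of `f` consists of exponents lexicographically at least `u`, of the same total
degree, and the leading exponent is `v`. -/
structure Ge (f : MvPolynomial (Fin n) k) (u v : Fin n →₀ ℕ) : Prop where
  ne : f ≠ 0
  ge : ∀ s ∈ f.support, toLex u ≤ toLex s ∧ s.degree = u.degree
  deg : (lx n).degree f = v

theorem Ge.mul {f g : MvPolynomial (Fin n) k} {u v u' v' : Fin n →₀ ℕ} (hf : Ge f u v)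
    (hg : Ge g u' v') : Ge (f * g) (u + u') (v + v') where
  ne := mul_ne_zero hf.ne hg.ne
  ge := by
    classical
    intro s hs
    obtain ⟨a, ha, b, hb, rfl⟩ := Finset.mem_add.1 (MvPolynomial.support_mul f g hs)
    have h1 := hf.ge a ha
    have h2 := hg.ge b hb
    refine ⟨?_, by rw [map_add, map_add, h1.2, h2.2]⟩
    rw [toLex_add, toLex_add]
    exact add_le_add h1.1 h2.1
  deg := by rw [MonomialOrder.degree_mul hf.ne hg.ne, hf.deg, hg.deg]

theorem Ge.one : Ge (1 : MvPolynomial (Fin n) k) 0 0 where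
  ne := one_ne_zero
  ge := by
    intro s hs
    have : s = 0 := by
      by_contra h
      rw [MvPolynomial.mem_support_iff, MvPolynomial.coeff_one, if_neg (fun h' => h h'.symm)] at hs
      exact hs rfl
    subst this
    simp
  deg := by
    classical
    have : (1 : MvPolynomial (Fin n) k) = monomial 0 1 := rfl
    rw [this, MonomialOrder.degree_monomial]
    simp

theorem lex_single_lt {i j : Fin n} (hij : i < j) :
    toLex (Finsupp.single j 1 : Fin n →₀ ℕ) < toLex (Finsupp.single i 1) := by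
  refine ⟨i, ?_, ?_⟩
  · intro l hl
    have h1 : l ≠ j := ne_of_lt (hl.trans hij)
    have h2 : l ≠ i := ne_of_lt hl
    change (Finsupp.single j 1 : Fin n →₀ ℕ) l = (Finsupp.single i 1 : Fin n →₀ ℕ) l
    simp [h1.symm, h2.symm]
  · change (Finsupp.single j 1 : Fin n →₀ ℕ) i < (Finsupp.single i 1 : Fin n →₀ ℕ) i
    simp [(ne_of_lt hij).symm]

theorem Ge.X (i j : Fin n) (h : i < j) (t : Fin n) :
    Ge (subE (elem k i j h.ne) (MvPolynomial.X t)) (Finsupp.single t 1)
      (fm i j (Finsupp.single t 1)) := by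
  classical
  rw [subE_elem_X]
  have hXt : (lx n).degree (MvPolynomial.X t : MvPolynomial (Fin n) k) = Finsupp.single t 1 :=
    MonomialOrder.degree_X
  have hXi : (lx n).degree (MvPolynomial.X i : MvPolynomial (Fin n) k) = Finsupp.single i 1 :=
    MonomialOrder.degree_X
  by_cases ht : t = j
  · subst ht
    rw [if_pos rfl]
    have hdeg : (lx n).degree (MvPolynomial.X t + MvPolynomial.X i : MvPolynomial (Fin n) k) =
        Finsupp.single i 1 := by
      rw [add_comm, MonomialOrder.degree_add_of_lt, hXi]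
      rw [hXt, hXi]
      exact lex_single_lt h
    refine ⟨?_, ?_, ?_⟩
    · intro h0
      rw [h0, MonomialOrder.degree_zero] at hdeg
      have := congrArg (fun v : Fin n →₀ ℕ => v i) hdeg
      simp at this
    · intro s hs
      rcases Finset.mem_union.1 (MvPolynomial.support_add hs) with h1 | h1
      · rw [MvPolynomial.support_X, Finset.mem_singleton] at h1
        subst h1
        exact ⟨le_rfl, rfl⟩
      · rw [MvPolynomial.support_X, Finset.mem_singleton] at h1
        subst h1
        exact ⟨(lex_single_lt h).le, by simp⟩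
    · rw [hdeg]
      unfold fm
      rw [Finsupp.mapDomain_single]
      simp
  · rw [if_neg ht, add_zero]
    refine ⟨X_ne_zero _, ?_, ?_⟩
    · intro s hs
      rw [MvPolynomial.support_X, Finset.mem_singleton] at hs
      subst hs
      exact ⟨le_rfl, rfl⟩
    · rw [hXt]
      unfold fm
      rw [Finsupp.mapDomain_single, Function.update_of_ne ht]
      rfl

theorem Ge.monomial (i j : Fin n) (h : i < j) (u : Fin n →₀ ℕ) :
    Ge (subE (elem k i j h.ne) (MvPolynomial.monomial u (1 : k))) u (fm i j u) := by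
  induction u using Finsupp.induction_linear with
  | zero =>
    have h1 : (MvPolynomial.monomial (0 : Fin n →₀ ℕ) (1 : k)) = 1 := rfl
    have h2 : fm i j (0 : Fin n →₀ ℕ) = 0 := by simp [fm]
    rw [h1, map_one, h2]
    exact Ge.one
  | add u v hu hv =>
    have h1 : MvPolynomial.monomial (u + v) (1 : k) =
        MvPolynomial.monomial u 1 * MvPolynomial.monomial v 1 := by
      rw [monomial_mul, one_mul]
    rw [h1, map_mul, fm_add]
    exact hu.mul hv
  | single t a =>
    induction a with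
    | zero =>
      have h1 : (MvPolynomial.monomial (Finsupp.single t 0 : Fin n →₀ ℕ) (1 : k)) = 1 := by
        rw [Finsupp.single_zero]; rfl
      have h2 : fm i j (Finsupp.single t 0 : Fin n →₀ ℕ) = 0 := by simp [fm]
      rw [h1, map_one, h2, Finsupp.single_zero]
      exact Ge.one
    | succ a ih =>
      have h1 : MvPolynomial.monomial (Finsupp.single t (a + 1)) (1 : k) =
          MvPolynomial.monomial (Finsupp.single t a) 1 * MvPolynomial.X t := by
        rw [MvPolynomial.X, monomial_mul, one_mul, ← Finsupp.single_add]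
      rw [h1, map_mul, Finsupp.single_add, fm_add]
      exact ih.mul (Ge.X i j h t)

/-- The dimension of a space of polynomials is at most the number of possible leading
exponents. -/
theorem top_count (U : Submodule k (MvPolynomial (Fin n) k)) (T : Set (Fin n →₀ ℕ))
    (hT : T.Finite) (h : ∀ f ∈ U, f ≠ 0 → (lx n).degree f ∈ T) :
    Module.finrank k U ≤ T.ncard := by
  classical
  have : Finite T := hT
  have := Fintype.ofFinite T
  let L : U →ₗ[k] (T → k) :=
    { toFun := fun f w => coeff w.1 f.1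
      map_add' := fun f g => by funext w; simp
      map_smul' := fun a f => by funext w; simp }
  have hL : Function.Injective L := by
    rw [injective_iff_map_eq_zero]
    intro f hf
    by_contra hne
    have hne' : f.1 ≠ 0 := fun h => hne (Subtype.ext h)
    have h1 := h f.1 f.2 hne'
    have h2 : coeff ((lx n).degree f.1) f.1 = 0 := congrFun hf ⟨_, h1⟩
    exact (MonomialOrder.coeff_degree_ne_zero_iff (m := lx n)).2 hne' h2
  have h1 := LinearMap.finrank_le_finrank_of_injective hL
  rw [Module.finrank_fintype_fun_eq_card] at h1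
  rwa [← Nat.card_coe_set_eq, Nat.card_eq_fintype_card]

/-- The set of exponents in `M` of degree less than `D` and lexicographically at least `w`. -/
def up (D : ℕ) (M : Set (Fin n →₀ ℕ)) (w : Fin n →₀ ℕ) : Set (Fin n →₀ ℕ) :=
  {u | u ∈ M ∧ u.degree < D ∧ toLex w ≤ toLex u}

theorem up_finite (D : ℕ) (M : Set (Fin n →₀ ℕ)) (w : Fin n →₀ ℕ) : (up D M w).Finite :=
  (Finsupp.finite_of_degree_lt D).subset (fun _ hu => hu.2.1)

theorem up_le (D : ℕ) (M : Set (Fin n →₀ ℕ)) (w : Fin n →₀ ℕ) (i j : Fin n)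
    (h : i < j) :
    (up D M w).ncard ≤ (up D (inn (im (elem k i j h.ne) (mon k M))) w).ncard := by
  classical
  have : Finite (up D M w) := up_finite D M w
  have := Fintype.ofFinite (up D M w)
  let g : up D M w → MvPolynomial (Fin n) k :=
    fun u => subE (elem k i j h.ne) (MvPolynomial.monomial u.1 (1 : k))
  have hli : LinearIndependent k g := by
    have h1 := (MvPolynomial.basisMonomials (Fin n) k).linearIndependent
    have h2 := h1.comp (fun u : up D M w => u.1) Subtype.val_injective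
    have h3 := h2.map' (subE (elem k i j h.ne)).toLinearMap
      (LinearMap.ker_eq_bot.2 (subE (elem k i j h.ne)).injective)
    simpa [Function.comp_def, MvPolynomial.coe_basisMonomials, g] using h3
  have hrank : Module.finrank k (Submodule.span k (Set.range g)) = (up D M w).ncard := by
    rw [finrank_span_eq_card hli, ← Nat.card_coe_set_eq, Nat.card_eq_fintype_card]
  rw [← hrank]
  apply top_count _ _ (up_finite _ _ _)
  intro f hf hf0
  have hsupp : ∀ s ∈ f.support, s.degree < D ∧ toLex w ≤ toLex s := by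
    clear hf0
    induction hf using Submodule.span_induction with
    | mem x hx =>
      obtain ⟨u, rfl⟩ := hx
      intro s hs
      have h1 := (Ge.monomial (k := k) i j h u.1).ge s hs
      exact ⟨h1.2 ▸ u.2.2.1, u.2.2.2.trans h1.1⟩
    | zero => simp
    | add x y _ _ hx hy =>
      intro s hs
      rcases Finset.mem_union.1 (MvPolynomial.support_add hs) with h | h
      · exact hx s h
      · exact hy s h
    | smul a x _ hx =>
      intro s hs
      exact hx s (MvPolynomial.support_smul hs)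
  have hmem : f ∈ im (elem k i j h.ne) (mon k M) := by
    have h1 : Submodule.span k (Set.range g) ≤
        (im (elem k i j h.ne) (mon k M)).restrictScalars k := by
      rw [Submodule.span_le]
      rintro _ ⟨u, rfl⟩
      exact mem_im _ (monomial_mem_mon u.2.1)
    exact h1 hf
  have h2 := (MonomialOrder.degree_mem_support_iff (m := lx n) f).2 hf0
  exact ⟨⟨f, hmem, hf0, rfl⟩, (hsupp _ h2).1, (hsupp _ h2).2⟩

/-- Two sets with the same upper counts agree in degrees less than `D`. -/
theorem eq_of_up (D : ℕ) (M M' : Set (Fin n →₀ ℕ))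
    (h : ∀ w : Fin n →₀ ℕ, w.degree < D → (up D M w).ncard = (up D M' w).ncard) :
    ∀ u : Fin n →₀ ℕ, u.degree < D → (u ∈ M ↔ u ∈ M') := by
  classical
  by_contra hcon
  push Not at hcon
  have hfin : {u : Fin n →₀ ℕ | u.degree < D ∧ ¬ (u ∈ M ↔ u ∈ M')}.Finite :=
    (Finsupp.finite_of_degree_lt D).subset (fun _ hu => hu.1)
  obtain ⟨u0, hu0, hu0'⟩ := hcon
  have hne : hfin.toFinset.Nonempty := by
    refine ⟨u0, ?_⟩
    rw [Set.Finite.mem_toFinset]
    refine ⟨hu0, ?_⟩
    intro hiff
    rcases hu0' with h1 | h1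
    · exact h1.2 (hiff.1 h1.1)
    · exact h1.1 (hiff.2 h1.2)
  obtain ⟨w, hw, hmax⟩ := Finset.exists_max_image hfin.toFinset
    (fun u : Fin n →₀ ℕ => toLex u) hne
  rw [Set.Finite.mem_toFinset] at hw
  have hgt : ∀ u : Fin n →₀ ℕ, u.degree < D → toLex w < toLex u → (u ∈ M ↔ u ∈ M') := by
    intro u hu hwu
    by_contra hc
    have := hmax u (by rw [Set.Finite.mem_toFinset]; exact ⟨hu, hc⟩)
    exact absurd (lt_of_lt_of_le hwu this) (lt_irrefl _)
  have key : ∀ A B : Set (Fin n →₀ ℕ), (∀ u : Fin n →₀ ℕ, u.degree < D → toLex w < toLex u →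
      (u ∈ A ↔ u ∈ B)) → w ∈ A → w ∉ B → (up D A w).ncard = (up D B w).ncard + 1 := by
    intro A B hAB hA hB
    have : up D A w = insert w (up D B w) := by
      ext u
      simp only [up, Set.mem_insert_iff, Set.mem_ofPred_eq]
      constructor
      · rintro ⟨h1, h2, h3⟩
        rcases eq_or_lt_of_le h3 with h4 | h4
        · exact Or.inl (toLex.injective h4.symm)
        · exact Or.inr ⟨(hAB u h2 h4).1 h1, h2, h3⟩
      · rintro (h1 | ⟨h1, h2, h3⟩)
        · subst h1
          exact ⟨hA, hw.1, le_rfl⟩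
        · rcases eq_or_lt_of_le h3 with h4 | h4
          · rw [← toLex.injective h4]
            exact ⟨hA, hw.1, le_rfl⟩
          · exact ⟨(hAB u h2 h4).2 h1, h2, h3⟩
    rw [this, Set.ncard_insert_of_notMem (fun hc => hB hc.1) (up_finite _ _ _)]
  have hcount := h w hw.1
  by_cases hwM : w ∈ M
  · have hwM' : w ∉ M' := fun hc => hw.2 ⟨fun _ => hc, fun _ => hwM⟩
    have := key M M' hgt hwM hwM'
    omega
  · have hwM' : w ∈ M' := by
      by_contra hc
      exact hw.2 ⟨fun hh => absurd hh hwM, fun hh => absurd hh hc⟩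
    have := key M' M (fun u h1 h2 => (hgt u h1 h2).symm) hwM' hwM
    omega

/-- The class of sets considered. -/
structure Good (d D : ℕ) (I : Ideal (MvPolynomial (Fin n) k)) (M : Set (Fin n →₀ ℕ)) : Prop where
  up : IsUpperSet M
  big : ∀ u : Fin n →₀ ℕ, D ≤ u.degree → u ∈ M
  card : Mᶜ.ncard = dq I
  rel : Rel d I (mon k M)

theorem Good.mI_le {d D : ℕ} {I : Ideal (MvPolynomial (Fin n) k)} {M : Set (Fin n →₀ ℕ)}
    (h : Good d D I M) : mI n k ^ D ≤ mon k M := by
  intro f hf
  rw [MvPolynomial.mem_pow_idealOfVars_iff] at hf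
  rw [mem_mon_up h.up]
  intro w hw
  exact h.big w (hf w hw)

theorem Good.finite {d D : ℕ} {I : Ideal (MvPolynomial (Fin n) k)} {M : Set (Fin n →₀ ℕ)}
    (h : Good d D I M) : Mᶜ.Finite := by
  refine (Finsupp.finite_of_degree_lt D).subset ?_
  intro u hu
  by_contra hc
  exact hu (h.big u (not_lt.1 hc))

theorem good_start [Infinite k] (d : ℕ) {D : ℕ} {I : Ideal (MvPolynomial (Fin n) k)}
    (hI : mI n k ^ D ≤ I) : Good d D I (inn I) where
  up := inn_isUpper I
  big := fun _ hu => mem_inn_of_degree hI hu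
  card := (dq_eq I).symm
  rel := Rel_inn d ⟨D, hI⟩

theorem good_step [Infinite k] {d D : ℕ} {I : Ideal (MvPolynomial (Fin n) k)}
    {M : Set (Fin n →₀ ℕ)} (h : Good d D I M) (e : (Fin n → k) ≃ₗ[k] (Fin n → k)) :
    Good d D I (inn (im e (mon k M))) where
  up := inn_isUpper _
  big := fun _ hu => mem_inn_of_degree (im_Cof e h.mI_le) hu
  card := by rw [← dq_eq, dq_im, dq_eq, inn_mon h.up, h.card]
  rel := (h.rel.trans (Rel_im d e _)).trans (Rel_inn d ⟨D, im_Cof e h.mI_le⟩)

/-- Existence of a comparison set closed under full moves. -/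
theorem exists_full [Infinite k] (d : ℕ) {D : ℕ} {I : Ideal (MvPolynomial (Fin n) k)}
    (hI : mI n k ^ D ≤ I) : ∃ M : Set (Fin n →₀ ℕ), Good d D I M ∧ FullMove M := by
  classical
  have := Fintype.ofFinite (Bd n D)
  let Ψ : Set (Fin n →₀ ℕ) → ℕ := fun M => ∑ w : Bd n D, (up D M w.1).ncard
  have hbound : ∀ M, Ψ M ≤ ∑ _w : Bd n D, {u : Fin n →₀ ℕ | u.degree < D}.ncard := by
    intro M
    apply Finset.sum_le_sum
    intro w _
    exact Set.ncard_le_ncard (fun u hu => hu.2.1) (Finsupp.finite_of_degree_lt D)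
  let V : Set ℕ := {x | ∃ M, Good d D I M ∧ Ψ M = x}
  have hVne : V.Nonempty := ⟨_, inn I, good_start d hI, rfl⟩
  have hVb : BddAbove V := by
    refine ⟨∑ _w : Bd n D, {u : Fin n →₀ ℕ | u.degree < D}.ncard, ?_⟩
    rintro x ⟨M, _, rfl⟩
    exact hbound M
  obtain ⟨M, hM, hMs⟩ := Nat.sSup_mem hVne hVb
  refine ⟨M, hM, ?_⟩
  intro v hv i j hij
  set e := elem k i j hij.ne with he
  set M' := inn (im e (mon k M)) with hM'
  have hg' : Good d D I M' := good_step hM e
  have hle : ∀ w : Bd n D, (up D M w.1).ncard ≤ (up D M' w.1).ncard :=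
    fun w => up_le D M w.1 i j hij
  have hle2 : Ψ M' ≤ Ψ M := by
    rw [hMs]
    exact le_csSup hVb ⟨M', hg', rfl⟩
  have heq : ∀ w : Bd n D, (up D M w.1).ncard = (up D M' w.1).ncard := by
    have h1 : Ψ M = Ψ M' := le_antisymm (Finset.sum_le_sum (fun w _ => hle w)) hle2
    intro w
    exact (Finset.sum_eq_sum_iff_of_le (fun w _ => hle w)).1 h1 w (Finset.mem_univ w)
  have hMM := eq_of_up D M M' (fun w hw => heq ⟨w, hw⟩)
  have hin : fm i j v ∈ M' :=
    ⟨_, mem_im e (monomial_mem_mon hv), (Ge.monomial (k := k) i j hij v).ne,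
      (Ge.monomial (k := k) i j hij v).deg⟩
  by_cases hdeg : (fm i j v).degree < D
  · exact (hMM _ hdeg).2 hin
  · exact hM.big _ (not_lt.1 hdeg)

end Pool.Agent.Y236.SL
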